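import Mathlib

set_option autoImplicit false

/-!
Arrays of small natural numbers packed into one natural number, field width `w`.
-/

namespace Pool.Agent.Helper413_Mak

/-- packed array: field `i` of width `w` holds `f i` -/
def pk (w : ℕ) (f : ℕ → ℕ) (n : ℕ) : ℕ := ∑ i ∈ Finset.range n, f i * 2 ^ (w * i)

theorem pk_zero (w : ℕ) (f : ℕ → ℕ) : pk w f 0 = 0 := by simp [pk]

theorem pk_one (w : ℕ) (f : ℕ → ℕ) : pk w f 1 = f 0 := by simp [pk]

theorem pk_succ (w : ℕ) (f : ℕ → ℕ) (n : ℕ) : pk w f (n + 1) = pk w f n + f n * 2 ^ (w * n) := by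
  simp [pk, Finset.sum_range_succ]

theorem pk_congr (w : ℕ) (f g : ℕ → ℕ) (n : ℕ) (h : ∀ i < n, f i = g i) : pk w f n = pk w g n := by
  unfold pk
  apply Finset.sum_congr rfl
  intro i hi
  rw [h i (Finset.mem_range.1 hi)]

theorem pk_split (w : ℕ) (f : ℕ → ℕ) (a b : ℕ) :
    pk w f (a + b) = pk w f a + 2 ^ (w * a) * pk w (fun i => f (a + i)) b := by
  induction b with
  | zero => simp [pk_zero]
  | succ b ih =>
    rw [← add_assoc, pk_succ, ih, pk_succ, mul_add w a b, pow_add]
    ring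

theorem pk_lt (w : ℕ) (f : ℕ → ℕ) (n : ℕ) (h : ∀ i < n, f i < 2 ^ w) : pk w f n < 2 ^ (w * n) := by
  induction n with
  | zero => simp [pk_zero]
  | succ n ih =>
    have h1 := ih (fun i hi => h i (by omega))
    have h2 := h n (by omega)
    rw [pk_succ, mul_add, mul_one, pow_add]
    have h3 : f n * 2 ^ (w * n) + 2 ^ (w * n) ≤ 2 ^ (w * n) * 2 ^ w := by
      calc f n * 2 ^ (w * n) + 2 ^ (w * n) = (f n + 1) * 2 ^ (w * n) := by ring
        _ ≤ 2 ^ w * 2 ^ (w * n) := Nat.mul_le_mul_right _ h2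
        _ = 2 ^ (w * n) * 2 ^ w := by ring
    omega

theorem pk_mod (w : ℕ) (f : ℕ → ℕ) (a b : ℕ) (h : ∀ i < a, f i < 2 ^ w) :
    pk w f (a + b) % 2 ^ (w * a) = pk w f a := by
  rw [pk_split, Nat.add_mul_mod_self_left]
  exact Nat.mod_eq_of_lt (pk_lt w f a h)

theorem pk_div (w : ℕ) (f : ℕ → ℕ) (a b : ℕ) (h : ∀ i < a, f i < 2 ^ w) :
    pk w f (a + b) / 2 ^ (w * a) = pk w (fun i => f (a + i)) b := by
  rw [pk_split, Nat.add_mul_div_left _ _ (by positivity), Nat.div_eq_of_lt (pk_lt w f a h), zero_add]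

theorem pk_mod_le (w : ℕ) (f : ℕ → ℕ) (a n : ℕ) (ha : a ≤ n) (h : ∀ i < a, f i < 2 ^ w) :
    pk w f n % 2 ^ (w * a) = pk w f a := by
  obtain ⟨b, rfl⟩ := Nat.exists_eq_add_of_le ha
  exact pk_mod w f a b h

theorem pk_div_le (w : ℕ) (f : ℕ → ℕ) (a n : ℕ) (ha : a ≤ n) (h : ∀ i < a, f i < 2 ^ w) :
    pk w f n / 2 ^ (w * a) = pk w (fun i => f (a + i)) (n - a) := by
  obtain ⟨b, rfl⟩ := Nat.exists_eq_add_of_le ha
  rw [pk_div w f a b h, Nat.add_sub_cancel_left]

theorem pk_add (w : ℕ) (f g : ℕ → ℕ) (n : ℕ) : pk w f n + pk w g n = pk w (fun i => f i + g i) n := by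
  unfold pk
  rw [← Finset.sum_add_distrib]
  apply Finset.sum_congr rfl
  intro i _
  ring

theorem pk_mul (w : ℕ) (f : ℕ → ℕ) (c n : ℕ) : pk w f n * c = pk w (fun i => f i * c) n := by
  unfold pk
  rw [Finset.sum_mul]
  apply Finset.sum_congr rfl
  intro i _
  ring

/-- extraction of a field -/
theorem pk_get (w : ℕ) (f : ℕ → ℕ) (n i : ℕ) (hi : i < n) (h : ∀ i < n, f i < 2 ^ w) :
    pk w f n / 2 ^ (w * i) % 2 ^ w = f i := by
  rw [pk_div_le w f i n (by omega) (fun j hj => h j (by omega))]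
  have h1 : n - i = 1 + (n - i - 1) := by omega
  have h2 := pk_mod w (fun j => f (i + j)) 1 (n - i - 1) (fun j hj => h (i + j) (by omega))
  rw [mul_one] at h2
  rw [h1, h2, pk_one]
  simp

theorem pk_inj (w : ℕ) (f g : ℕ → ℕ) (n : ℕ) (hf : ∀ i < n, f i < 2 ^ w) (hg : ∀ i < n, g i < 2 ^ w)
    (h : pk w f n = pk w g n) : ∀ i < n, f i = g i := by
  intro i hi
  rw [← pk_get w f n i hi hf, ← pk_get w g n i hi hg, h]

theorem land_split (k a b A B : ℕ) (ha : a < 2 ^ k) (hb : b < 2 ^ k) :
    Nat.land (a + 2 ^ k * A) (b + 2 ^ k * B) = Nat.land a b + 2 ^ k * Nat.land A B := by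
  change (a + 2 ^ k * A) &&& (b + 2 ^ k * B) = (a &&& b) + 2 ^ k * (A &&& B)
  apply Nat.eq_of_testBit_eq
  intro j
  have hab : a &&& b < 2 ^ k := Nat.and_lt_two_pow _ hb
  rw [Nat.testBit_and, add_comm a, add_comm b, add_comm (a &&& b), Nat.testBit_two_pow_mul_add _ ha,
    Nat.testBit_two_pow_mul_add _ hb, Nat.testBit_two_pow_mul_add _ hab]
  by_cases hj : j < k
  · simp [hj, Nat.testBit_and]
  · simp [hj, Nat.testBit_and]

theorem pk_land (w : ℕ) (f g : ℕ → ℕ) (n : ℕ) (hf : ∀ i < n, f i < 2 ^ w)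
    (hg : ∀ i < n, g i < 2 ^ w) :
    Nat.land (pk w f n) (pk w g n) = pk w (fun i => Nat.land (f i) (g i)) n := by
  induction n with
  | zero => simp [pk_zero]
  | succ n ih =>
    rw [pk_succ, pk_succ, pk_succ, mul_comm (f n), mul_comm (g n),
      land_split _ _ _ _ _ (pk_lt w f n (fun i hi => hf i (by omega)))
        (pk_lt w g n (fun i hi => hg i (by omega))),
      ih (fun i hi => hf i (by omega)) (fun i hi => hg i (by omega))]
    ring

/-- the array of ones -/
def ones (w n : ℕ) : ℕ := Nat.div (Nat.sub (Nat.pow 2 (Nat.mul w n)) 1) (Nat.sub (Nat.pow 2 w) 1)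

theorem ones_eq (w n : ℕ) (hw : 1 ≤ w) : ones w n = pk w (fun _ => 1) n := by
  have h1 : ∀ n : ℕ, pk w (fun _ => 1) n * (2 ^ w - 1) = 2 ^ (w * n) - 1 := by
    intro n
    induction n with
    | zero => simp [pk_zero]
    | succ n ih =>
      rw [pk_succ, add_mul, ih, mul_add w n 1, mul_one, pow_add, one_mul, Nat.mul_sub, mul_one]
      have h2 : 1 ≤ 2 ^ (w * n) := Nat.one_le_two_pow
      have h3 : 2 ^ (w * n) ≤ 2 ^ (w * n) * 2 ^ w := Nat.le_mul_of_pos_right _ (by positivity)
      omega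
  have h2 : 0 < 2 ^ w - 1 := by
    have : 2 ^ 1 ≤ 2 ^ w := Nat.pow_le_pow_right (by norm_num) hw
    omega
  change (2 ^ (w * n) - 1) / (2 ^ w - 1) = _
  rw [← h1 n, Nat.mul_div_cancel _ h2]

theorem ones_mul (w n c : ℕ) (hw : 1 ≤ w) : Nat.mul (ones w n) c = pk w (fun _ => c) n := by
  change ones w n * c = _
  rw [ones_eq w n hw, pk_mul]
  simp

/-- the halving size -/
def hf (n : ℕ) : ℕ := Nat.div (Nat.add n 1) 2

/-- scan of an array of fields of width `w` (top bit unused): every zero field passes the leaf test -/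
def bis (w : ℕ) (leaf : ℕ → Bool) (k : ℕ) : ℕ → ℕ → ℕ → Bool :=
  Nat.rec (fun n T lo => and (Nat.ble n 1) (or (not (Nat.beq T 0)) (leaf lo)))
    (fun _ ih n T lo =>
      cond (Nat.ble n 1) (or (not (Nat.beq T 0)) (leaf lo))
        (cond (Nat.beq (Nat.land (Nat.add T (Nat.mul (ones w n) (Nat.sub (Nat.pow 2 (Nat.sub w 1)) 1)))
            (Nat.mul (ones w n) (Nat.pow 2 (Nat.sub w 1))))
            (Nat.mul (ones w n) (Nat.pow 2 (Nat.sub w 1)))) true
          (and (ih (hf n) (Nat.mod T (Nat.pow 2 (Nat.mul w (hf n)))) lo)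
            (ih (hf n) (Nat.shiftRight T (Nat.mul w (Nat.sub n (hf n))))
              (Nat.add lo (Nat.sub n (hf n))))))) k

theorem bis_leaf (w : ℕ) (leaf : ℕ → Bool) (n T lo : ℕ) (f : ℕ → ℕ) (hn : n ≤ 1) (hT : T = pk w f n)
    (h : (or (not (Nat.beq T 0)) (leaf lo)) = true) : ∀ i < n, f i = 0 → leaf (lo + i) = true := by
  intro i hi h0
  have h1 : n = 1 := by omega
  have h2 : i = 0 := by omega
  subst h1 h2
  rw [pk_one, h0] at hT
  subst hT
  simpa using h

theorem bis_spec (w : ℕ) (hw : 1 ≤ w) (leaf : ℕ → Bool) (k : ℕ) :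
    ∀ (n T lo : ℕ) (f : ℕ → ℕ), T = pk w f n → (∀ i < n, f i < 2 ^ (w - 1)) →
      bis w leaf k n T lo = true → ∀ i < n, f i = 0 → leaf (lo + i) = true := by
  induction k with
  | zero =>
    intro n T lo f hT hf' h
    have h' : (and (Nat.ble n 1) (or (not (Nat.beq T 0)) (leaf lo))) = true := h
    rw [Bool.and_eq_true] at h'
    exact bis_leaf w leaf n T lo f (Nat.le_of_ble_eq_true h'.1) hT h'.2
  | succ k ih =>
    intro n T lo f hT hf' h
    have h' : (cond (Nat.ble n 1) (or (not (Nat.beq T 0)) (leaf lo))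
        (cond (Nat.beq (Nat.land (Nat.add T (Nat.mul (ones w n) (Nat.sub (Nat.pow 2 (Nat.sub w 1)) 1)))
            (Nat.mul (ones w n) (Nat.pow 2 (Nat.sub w 1))))
            (Nat.mul (ones w n) (Nat.pow 2 (Nat.sub w 1)))) true
          (and (bis w leaf k (hf n) (Nat.mod T (Nat.pow 2 (Nat.mul w (hf n)))) lo)
            (bis w leaf k (hf n) (Nat.shiftRight T (Nat.mul w (Nat.sub n (hf n))))
              (Nat.add lo (Nat.sub n (hf n))))))) = true := h
    cases hb : Nat.ble n 1 with
    | true =>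
      rw [hb] at h'
      exact bis_leaf w leaf n T lo f (Nat.le_of_ble_eq_true hb) hT h'
    | false =>
      rw [hb] at h'
      have hn : 1 < n := by
        by_contra hc
        rw [Nat.ble_eq_true_of_le (by omega)] at hb
        exact Bool.noConfusion hb
      have hww : 2 ^ w = 2 ^ (w - 1) + 2 ^ (w - 1) := by
        obtain ⟨v, rfl⟩ := Nat.exists_eq_add_of_le hw
        rw [Nat.add_sub_cancel_left, pow_add]
        ring
      have hpos : 0 < 2 ^ (w - 1) := by positivity
      cases hc : Nat.beq (Nat.land (Nat.add T (Nat.mul (ones w n)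
            (Nat.sub (Nat.pow 2 (Nat.sub w 1)) 1)))
            (Nat.mul (ones w n) (Nat.pow 2 (Nat.sub w 1))))
            (Nat.mul (ones w n) (Nat.pow 2 (Nat.sub w 1))) with
      | true =>
        have hc' := Nat.eq_of_beq_eq_true hc
        rw [ones_mul w n _ hw, ones_mul w n _ hw, hT] at hc'
        have e1 : Nat.add (pk w f n) (pk w (fun _ => Nat.sub (Nat.pow 2 (Nat.sub w 1)) 1) n)
            = pk w (fun i => f i + (2 ^ (w - 1) - 1)) n := by
          exact pk_add w f _ n
        rw [e1, pk_land w _ _ n (by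
            intro i hi
            have := hf' i hi
            change f i + (2 ^ (w - 1) - 1) < 2 ^ w
            omega) (by
            intro i hi
            change 2 ^ (w - 1) < 2 ^ w
            omega)] at hc'
        have hlt2 : ∀ i < n, (2 : ℕ) ^ (w - 1) < 2 ^ w := fun i _ => by omega
        have h3 := pk_inj w _ _ n (by
            intro i hi
            change (f i + (2 ^ (w - 1) - 1)) &&& 2 ^ (w - 1) < 2 ^ w
            exact lt_of_le_of_lt Nat.and_le_right (by omega)) (by
            intro i hi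
            change 2 ^ (w - 1) < 2 ^ w
            omega) hc'
        intro i hi h0
        have h4 := h3 i hi
        have h5 : (f i + (2 ^ (w - 1) - 1)) &&& 2 ^ (w - 1) = 2 ^ (w - 1) := h4
        rw [h0, zero_add] at h5
        have h6 : (2 ^ (w - 1) - 1) &&& 2 ^ (w - 1) ≤ 2 ^ (w - 1) - 1 := Nat.and_le_left
        omega
      | false =>
        rw [hc] at h'
        have h'' : (and (bis w leaf k (hf n) (Nat.mod T (Nat.pow 2 (Nat.mul w (hf n)))) lo)
            (bis w leaf k (hf n) (Nat.shiftRight T (Nat.mul w (Nat.sub n (hf n))))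
              (Nat.add lo (Nat.sub n (hf n))))) = true := h'
        rw [Bool.and_eq_true] at h''
        have hh : hf n = (n + 1) / 2 := rfl
        have hlt : ∀ i < n, f i < 2 ^ w := by
          intro i hi
          have := hf' i hi
          omega
        have e1 : Nat.mod T (Nat.pow 2 (Nat.mul w (hf n))) = pk w f (hf n) := by
          rw [hT]
          exact pk_mod_le w f (hf n) n (by omega) (fun i hi => hlt i (by omega))
        have e2 : Nat.shiftRight T (Nat.mul w (Nat.sub n (hf n)))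
            = pk w (fun i => f (n - hf n + i)) (hf n) := by
          change T >>> (w * (n - hf n)) = _
          rw [Nat.shiftRight_eq_div_pow, hT, pk_div_le w f (n - hf n) n (by omega)
            (fun i hi => hlt i (by omega))]
          congr 1
          omega
        have h1 := ih (hf n) _ lo f e1 (fun i hi => hf' i (by omega)) h''.1
        have h2 := ih (hf n) _ (lo + (n - hf n)) (fun i => f (n - hf n + i)) e2
          (fun i hi => hf' _ (by omega)) h''.2
        intro i hi h0
        by_cases hi2 : i < hf n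
        · exact h1 i hi2 h0
        · have h3 := h2 (i - (n - hf n)) (by omega) (by
            have : n - hf n + (i - (n - hf n)) = i := by omega
            change f (n - hf n + (i - (n - hf n))) = 0
            rw [this]; exact h0)
          have e3 : lo + (n - hf n) + (i - (n - hf n)) = lo + i := by omega
          rw [e3] at h3
          exact h3

end Pool.Agent.Helper413_Mak
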