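import Mathlib
import Pool.Agent.Helper413_Mak.Pk

set_option autoImplicit false

/-!
Building packed prefix sums from a number whose base four digits are the letters.
-/

namespace Pool.Agent.Helper413_Mak

/-- digit `i` in base four -/
def dg (L i : ℕ) : ℕ := L / 4 ^ i % 4

/-- sum of `D` over the first `2 ^ k` digits -/
def sm (D : ℕ → ℕ) (k : ℕ) : ℕ → ℕ :=
  Nat.rec (fun L => D (Nat.mod L 4))
    (fun k ih L => Nat.add (ih (Nat.mod L (Nat.pow 4 (Nat.pow 2 k))))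
      (ih (Nat.div L (Nat.pow 4 (Nat.pow 2 k))))) k

/-- packed prefix sums over the first `2 ^ k` digits -/
def bld (e : ℕ → ℕ → ℕ) (w : ℕ) (DX DY : ℕ → ℕ) (k : ℕ) : ℕ → ℕ → ℕ → ℕ :=
  Nat.rec (fun _ x y => e x y)
    (fun k ih L x y =>
      Nat.add (ih (Nat.mod L (Nat.pow 4 (Nat.pow 2 k))) x y)
        (Nat.mul (Nat.pow 2 (Nat.mul w (Nat.pow 2 k)))
          (ih (Nat.div L (Nat.pow 4 (Nat.pow 2 k)))
            (Nat.add x (sm DX k (Nat.mod L (Nat.pow 4 (Nat.pow 2 k)))))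
            (Nat.add y (sm DY k (Nat.mod L (Nat.pow 4 (Nat.pow 2 k)))))))) k

theorem dg_mod (L n i : ℕ) (hi : i < n) : dg (L % 4 ^ n) i = dg L i := by
  unfold dg
  obtain ⟨m, rfl⟩ := Nat.exists_eq_add_of_lt hi
  have h1 : (4 : ℕ) ^ (i + m + 1) = 4 ^ i * (4 * 4 ^ m) := by rw [pow_succ, pow_add]; ring
  rw [h1, Nat.mod_mul_right_div_self, Nat.mod_mul_right_mod]

theorem dg_div (L n i : ℕ) : dg (L / 4 ^ n) i = dg L (n + i) := by
  unfold dg
  rw [Nat.div_div_eq_div_mul, ← pow_add]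

/-- prefix sum of `D` over digits -/
def ps (D : ℕ → ℕ) (L n : ℕ) : ℕ := ∑ i ∈ Finset.range n, D (dg L i)

theorem ps_zero (D : ℕ → ℕ) (L : ℕ) : ps D L 0 = 0 := by simp [ps]

theorem ps_succ (D : ℕ → ℕ) (L n : ℕ) : ps D L (n + 1) = ps D L n + D (dg L n) := by
  simp [ps, Finset.sum_range_succ]

theorem ps_add (D : ℕ → ℕ) (L a b : ℕ) : ps D L (a + b) = ps D L a + ps D (L / 4 ^ a) b := by
  unfold ps
  rw [Finset.sum_range_add]
  congr 1
  apply Finset.sum_congr rfl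
  intro i _
  rw [dg_div]

theorem ps_mod (D : ℕ → ℕ) (L n m : ℕ) (h : m ≤ n) : ps D (L % 4 ^ n) m = ps D L m := by
  unfold ps
  apply Finset.sum_congr rfl
  intro i hi
  rw [dg_mod L n i (lt_of_lt_of_le (Finset.mem_range.1 hi) h)]

theorem sm_spec (D : ℕ → ℕ) (k : ℕ) : ∀ L, sm D k L = ps D L (2 ^ k) := by
  induction k with
  | zero => intro L; simp [sm, ps, dg]; rfl
  | succ k ih =>
    intro L
    have h1 : sm D (k + 1) L = sm D k (L % 4 ^ 2 ^ k) + sm D k (L / 4 ^ 2 ^ k) := rfl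
    rw [h1, ih, ih, pow_succ, mul_two, ps_add, ps_mod _ _ _ _ le_rfl]

theorem bld_spec (e : ℕ → ℕ → ℕ) (w : ℕ) (DX DY : ℕ → ℕ) (k : ℕ) : ∀ L x y,
    bld e w DX DY k L x y = pk w (fun i => e (x + ps DX L i) (y + ps DY L i)) (2 ^ k) := by
  induction k with
  | zero => intro L x y; simp [bld, pk, ps_zero]
  | succ k ih =>
    intro L x y
    have h1 : bld e w DX DY (k + 1) L x y = bld e w DX DY k (L % 4 ^ 2 ^ k) x y
        + 2 ^ (w * 2 ^ k) * bld e w DX DY k (L / 4 ^ 2 ^ k) (x + sm DX k (L % 4 ^ 2 ^ k))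
          (y + sm DY k (L % 4 ^ 2 ^ k)) := rfl
    rw [h1, ih, ih, sm_spec, sm_spec, pow_succ 2 k, mul_two, pk_split, ps_mod _ _ _ _ le_rfl,
      ps_mod _ _ _ _ le_rfl]
    congr 1
    · apply pk_congr
      intro i hi
      rw [ps_mod _ _ _ _ hi.le, ps_mod _ _ _ _ hi.le]
    · congr 1
      apply pk_congr
      intro i hi
      rw [ps_add, ps_add]
      ring_nf

end Pool.Agent.Helper413_Mak
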