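import Mathlib
import Pool.Agent.Helper413_Mak.Pk

set_option autoImplicit false

/-!
The finite check for a map between words and its meaning.
-/

namespace Pool.Agent.Helper413_Mak

/-- modulus for exact values -/
def MM : ℕ := 131072

/-- rotation -/
def Rm (k : ℕ) (p : ℤ × ℤ) : ℤ × ℤ :=
  if k % 3 = 0 then p else if k % 3 = 1 then (-p.2, p.1 - p.2) else (p.2 - p.1, -p.1)

/-- base points of the blocks -/
def Gm (al : ℤ × ℤ) (k : ℕ) : ℤ × ℤ :=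
  if k % 3 = 0 then (0, 0) else if k % 3 = 1 then al else (al.1 - al.2, al.1)

/-- position in the period -/
def Xp (l : ℕ) (al : ℤ × ℤ) (U : Bool → ℕ → ℤ × ℤ) (v : Bool) (j : ℕ) : ℤ × ℤ :=
  Gm al (j / l) + Rm (j / l) (U v (j % l))

/-- offset relative to the start (`s = 0`) or to the end (`s = 1`) of the block -/
def Ex (l : ℕ) (U : Bool → ℕ → ℤ × ℤ) (s : ℕ) (v : Bool) (r : ℕ) : ℤ × ℤ :=
  if s = 0 then U v r else Rm 2 (U v r - U v l)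

/-- A modular coincidence that cannot be the start of a long progression. -/
def Harm (l P : ℕ) (U : Bool → ℕ → ℤ × ℤ) (v0 v1 v2 : Bool) (k0 r0 r1 k2 r2 : ℕ) : Prop :=
  ∃ s0 s1 s2 : ℕ, s0 ≤ 1 ∧ s1 ≤ 1 ∧ s2 ≤ 1 ∧ (k0 + s0) % 3 = s1 ∧ (k2 + s2) % 3 = s1 ∧
    r0 + r2 + 2 * l * s1 = 2 * r1 + l * (s0 + s2) ∧
    (Ex l U s0 v0 r0).1 + (Ex l U s2 v2 r2).1 = 2 * (Ex l U s1 v1 r1).1 ∧
    (Ex l U s0 v0 r0).2 + (Ex l U s2 v2 r2).2 = 2 * (Ex l U s1 v1 r1).2 ∧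
    ((r1 + l * s0 < r0 + l * s1 + P ∧ r0 + l * s1 < r1 + l * s0 + P) ∨
      (s0 = s1 ∧ v0 ≠ v1) ∨ (s0 = s2 ∧ v0 ≠ v2) ∨ (s1 = s2 ∧ v1 ≠ v2))

theorem Harm.swap {l P : ℕ} {U : Bool → ℕ → ℤ × ℤ} {v0 v1 v2 : Bool} {k0 r0 r1 k2 r2 : ℕ}
    (h : Harm l P U v0 v1 v2 k0 r0 r1 k2 r2) : Harm l P U v2 v1 v0 k2 r2 r1 k0 r0 := by
  obtain ⟨s0, s1, s2, h0, h1, h2, h3, h4, h5, h6, h7, h8⟩ := h
  refine ⟨s2, s1, s0, h2, h1, h0, h4, h3, ?_, ?_, ?_, ?_⟩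
  · rw [add_comm r2, add_comm s2]; exact h5
  · rw [add_comm]; exact h6
  · rw [add_comm]; exact h7
  · rcases h8 with h8 | h8 | h8 | h8
    · left
      have h9 : r0 + r2 + 2 * (l * s1) = 2 * r1 + (l * s0 + l * s2) := by
        rw [← mul_assoc, ← mul_add]; exact h5
      omega
    · right; right; right; exact ⟨h8.1.symm, fun h => h8.2 h.symm⟩
    · right; right; left; exact ⟨h8.1.symm, fun h => h8.2 h.symm⟩
    · right; left; exact ⟨h8.1.symm, fun h => h8.2 h.symm⟩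

/-- field of the exact array, first coordinate -/
def fx (E r : ℕ) : ℕ := Nat.mod (Nat.shiftRight E (Nat.mul 34 r)) MM

/-- field of the exact array, second coordinate -/
def fy (E r : ℕ) : ℕ := Nat.mod (Nat.shiftRight E (Nat.add (Nat.mul 34 r) 17)) MM

/-- `Ex` modulo `MM`, first coordinate -/
def exX (l E s r : ℕ) : ℕ :=
  Nat.rec (fx E r) (fun _ _ => Nat.add (Nat.add (fy E r) (Nat.sub MM (fy E l)))
    (Nat.add (Nat.sub MM (fx E r)) (fx E l))) s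

/-- `Ex` modulo `MM`, second coordinate -/
def exY (l E s r : ℕ) : ℕ :=
  Nat.rec (fy E r) (fun _ _ => Nat.add (Nat.sub MM (fx E r)) (fx E l)) s

/-- test for one choice of sides -/
def hsB (l P E0 E1 E2 : ℕ) (v0 v1 v2 : Bool) (k0 r0 r1 k2 r2 s0 s1 s2 : ℕ) : Bool :=
  and (Nat.beq (Nat.mod (Nat.add k0 s0) 3) s1)
    (and (Nat.beq (Nat.mod (Nat.add k2 s2) 3) s1)
      (and (Nat.beq (Nat.add (Nat.add r0 r2) (Nat.mul (Nat.mul 2 l) s1))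
          (Nat.add (Nat.mul 2 r1) (Nat.mul l (Nat.add s0 s2))))
        (and (Nat.beq (Nat.mod (Nat.add (exX l E0 s0 r0) (exX l E2 s2 r2)) MM)
            (Nat.mod (Nat.mul 2 (exX l E1 s1 r1)) MM))
          (and (Nat.beq (Nat.mod (Nat.add (exY l E0 s0 r0) (exY l E2 s2 r2)) MM)
            (Nat.mod (Nat.mul 2 (exY l E1 s1 r1)) MM))
            (or (and (Nat.ble (Nat.add (Nat.add r1 (Nat.mul l s0)) 1)
                (Nat.add (Nat.add r0 (Nat.mul l s1)) P))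
                (Nat.ble (Nat.add (Nat.add r0 (Nat.mul l s1)) 1)
                (Nat.add (Nat.add r1 (Nat.mul l s0)) P)))
              (or (and (Nat.beq s0 s1) (xor v0 v1))
                (or (and (Nat.beq s0 s2) (xor v0 v2)) (and (Nat.beq s1 s2) (xor v1 v2)))))))))

/-- test for all choices of sides -/
def hB (l P E0 E1 E2 : ℕ) (v0 v1 v2 : Bool) (k0 r0 r1 k2 r2 : ℕ) : Bool :=
  or (or (or (hsB l P E0 E1 E2 v0 v1 v2 k0 r0 r1 k2 r2 0 0 0)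
        (hsB l P E0 E1 E2 v0 v1 v2 k0 r0 r1 k2 r2 0 0 1))
      (or (hsB l P E0 E1 E2 v0 v1 v2 k0 r0 r1 k2 r2 0 1 0)
        (hsB l P E0 E1 E2 v0 v1 v2 k0 r0 r1 k2 r2 0 1 1)))
    (or (or (hsB l P E0 E1 E2 v0 v1 v2 k0 r0 r1 k2 r2 1 0 0)
        (hsB l P E0 E1 E2 v0 v1 v2 k0 r0 r1 k2 r2 1 0 1))
      (or (hsB l P E0 E1 E2 v0 v1 v2 k0 r0 r1 k2 r2 1 1 0)
        (hsB l P E0 E1 E2 v0 v1 v2 k0 r0 r1 k2 r2 1 1 1)))

/-- the exact array `E` holds the values of `u` -/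
def ExOK (l : ℕ) (u : ℕ → ℤ × ℤ) (E : ℕ) : Prop :=
  ∀ i ≤ l, (MM : ℤ) ∣ (u i).1 - (fx E i : ℤ) ∧ (MM : ℤ) ∣ (u i).2 - (fy E i : ℤ)

/-- the values are small -/
def Bdd (l : ℕ) (u : ℕ → ℤ × ℤ) : Prop :=
  ∀ i ≤ l, |(u i).1| ≤ 8000 ∧ |(u i).2| ≤ 8000

theorem fx_lt (E r : ℕ) : fx E r < MM := Nat.mod_lt _ (by decide)

theorem fy_lt (E r : ℕ) : fy E r < MM := Nat.mod_lt _ (by decide)

theorem Rm_two (p : ℤ × ℤ) : Rm 2 p = (p.2 - p.1, -p.1) := by simp [Rm]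

theorem ex_ok (l : ℕ) (U : Bool → ℕ → ℤ × ℤ) (v : Bool) (E s r : ℕ) (hs : s ≤ 1) (hr : r ≤ l)
    (hE : ExOK l (U v) E) (hb : Bdd l (U v)) :
    (MM : ℤ) ∣ (Ex l U s v r).1 - (exX l E s r : ℤ) ∧ (MM : ℤ) ∣ (Ex l U s v r).2 - (exY l E s r : ℤ) ∧
    |(Ex l U s v r).1| ≤ 32000 ∧ |(Ex l U s v r).2| ≤ 32000 := by
  obtain ⟨⟨x, hx⟩, ⟨y, hy⟩⟩ := hE r hr
  obtain ⟨⟨x', hx'⟩, ⟨y', hy'⟩⟩ := hE l le_rfl
  have b1 := hb r hr
  have b2 := hb l le_rfl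
  have l1 := fx_lt E r
  have l2 := fy_lt E r
  have l3 := fx_lt E l
  have l4 := fy_lt E l
  simp only [abs_le] at b1 b2 ⊢
  simp only [MM] at *
  interval_cases s
  · have e1 : exX l E 0 r = fx E r := rfl
    have e2 : exY l E 0 r = fy E r := rfl
    rw [e1, e2]
    simp only [Ex, if_true]
    refine ⟨⟨x, hx⟩, ⟨y, hy⟩, ?_, ?_⟩ <;> constructor <;> omega
  · have e1 : exX l E 1 r = (fy E r + (131072 - fy E l)) + ((131072 - fx E r) + fx E l) := rfl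
    have e2 : exY l E 1 r = (131072 - fx E r) + fx E l := rfl
    rw [e1, e2]
    have e3 : Ex l U 1 v r = ((U v r).2 - (U v l).2 - ((U v r).1 - (U v l).1), -((U v r).1 - (U v l).1)) := by
      unfold Ex
      rw [if_neg (by norm_num), Rm_two]
      rfl
    rw [e3]
    have c1 : ((fy E r + (131072 - fy E l)) + ((131072 - fx E r) + fx E l) : ℕ)
        = (fy E r : ℤ) - fy E l - fx E r + fx E l + 2 * 131072 := by omega
    have c2 : ((131072 - fx E r) + fx E l : ℕ) = (fx E l : ℤ) - fx E r + 131072 := by omega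
    rw [c1, c2]
    refine ⟨⟨y - y' - x + x' - 2, ?_⟩, ⟨x' - x - 1, ?_⟩, ?_, ?_⟩
    · dsimp only
      push_cast at hx hy hx' hy' ⊢
      linarith
    · dsimp only
      push_cast at hx hy hx' hy' ⊢
      linarith
    · dsimp only
      constructor <;> omega
    · dsimp only
      constructor <;> omega

theorem nat_mod_dvd (a b m : ℕ) (h : a % m = b % m) : (m : ℤ) ∣ (a : ℤ) - b :=
  (Nat.modEq_iff_dvd.1 (show b ≡ a [MOD m] from h.symm))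

theorem zero_of_dvd_small (z : ℤ) (h : (MM : ℤ) ∣ z) (hb : |z| ≤ 128000) : z = 0 := by
  obtain ⟨x, hx⟩ := h
  rw [abs_le] at hb
  simp only [MM] at hx
  push_cast at hx
  omega

theorem hsB_spec (l P E0 E1 E2 : ℕ) (U : Bool → ℕ → ℤ × ℤ) (v0 v1 v2 : Bool) (k0 r0 r1 k2 r2 s0 s1 s2 : ℕ)
    (hs0 : s0 ≤ 1) (hs1 : s1 ≤ 1) (hs2 : s2 ≤ 1) (hr0 : r0 ≤ l) (hr1 : r1 ≤ l) (hr2 : r2 ≤ l)
    (hE0 : ExOK l (U v0) E0) (hE1 : ExOK l (U v1) E1) (hE2 : ExOK l (U v2) E2)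
    (hb : ∀ v, Bdd l (U v)) (h : hsB l P E0 E1 E2 v0 v1 v2 k0 r0 r1 k2 r2 s0 s1 s2 = true) :
    Harm l P U v0 v1 v2 k0 r0 r1 k2 r2 := by
  unfold hsB at h
  simp only [Bool.and_eq_true] at h
  obtain ⟨h1, h2, h3, h4, h5, h6⟩ := h
  have h1' := Nat.eq_of_beq_eq_true h1
  have h2' := Nat.eq_of_beq_eq_true h2
  have h3' := Nat.eq_of_beq_eq_true h3
  have h4' := Nat.eq_of_beq_eq_true h4
  have h5' := Nat.eq_of_beq_eq_true h5
  obtain ⟨a0, b0, c0, d0⟩ := ex_ok l U v0 E0 s0 r0 hs0 hr0 hE0 (hb v0)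
  obtain ⟨a1, b1, c1, d1⟩ := ex_ok l U v1 E1 s1 r1 hs1 hr1 hE1 (hb v1)
  obtain ⟨a2, b2, c2, d2⟩ := ex_ok l U v2 E2 s2 r2 hs2 hr2 hE2 (hb v2)
  have f4 := nat_mod_dvd _ _ _ h4'
  have f5 := nat_mod_dvd _ _ _ h5'
  refine ⟨s0, s1, s2, hs0, hs1, hs2, h1', h2', h3', ?_, ?_, ?_⟩
  · have hd : (MM : ℤ) ∣ (Ex l U s0 v0 r0).1 + (Ex l U s2 v2 r2).1 - 2 * (Ex l U s1 v1 r1).1 := by
      obtain ⟨x0, e0⟩ := a0
      obtain ⟨x1, e1⟩ := a1
      obtain ⟨x2, e2⟩ := a2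
      obtain ⟨x3, e3⟩ := f4
      have e3' : ((exX l E0 s0 r0 : ℤ) + exX l E2 s2 r2) - 2 * exX l E1 s1 r1 = MM * x3 := by
        rw [← e3]; simp [Nat.add_eq, Nat.mul_eq]
      exact ⟨x0 + x2 - 2 * x1 + x3, by linarith⟩
    have hz := zero_of_dvd_small _ hd (by
      rw [abs_le] at *
      constructor <;> linarith [c0.1, c0.2, c1.1, c1.2, c2.1, c2.2])
    linarith
  · have hd : (MM : ℤ) ∣ (Ex l U s0 v0 r0).2 + (Ex l U s2 v2 r2).2 - 2 * (Ex l U s1 v1 r1).2 := by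
      obtain ⟨x0, e0⟩ := b0
      obtain ⟨x1, e1⟩ := b1
      obtain ⟨x2, e2⟩ := b2
      obtain ⟨x3, e3⟩ := f5
      have e3' : ((exY l E0 s0 r0 : ℤ) + exY l E2 s2 r2) - 2 * exY l E1 s1 r1 = MM * x3 := by
        rw [← e3]; simp [Nat.add_eq, Nat.mul_eq]
      exact ⟨x0 + x2 - 2 * x1 + x3, by linarith⟩
    have hz := zero_of_dvd_small _ hd (by
      rw [abs_le] at *
      constructor <;> linarith [d0.1, d0.2, d1.1, d1.2, d2.1, d2.2])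
    linarith
  · simp only [Bool.or_eq_true, Bool.and_eq_true, bne_iff_ne, ne_eq, Nat.ble_eq] at h6
    rcases h6 with h6 | h6 | h6 | h6
    · left
      have g1 := h6.1
      have g2 := h6.2
      simp only [Nat.add_eq, Nat.mul_eq] at g1 g2
      omega
    · right; left
      refine ⟨Nat.eq_of_beq_eq_true h6.1, ?_⟩
      intro hv; rw [hv] at h6; simp at h6
    · right; right; left
      refine ⟨Nat.eq_of_beq_eq_true h6.1, ?_⟩
      intro hv; rw [hv] at h6; simp at h6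
    · right; right; right
      refine ⟨Nat.eq_of_beq_eq_true h6.1, ?_⟩
      intro hv; rw [hv] at h6; simp at h6

theorem hB_spec (l P E0 E1 E2 : ℕ) (U : Bool → ℕ → ℤ × ℤ) (v0 v1 v2 : Bool) (k0 r0 r1 k2 r2 : ℕ)
    (hr0 : r0 ≤ l) (hr1 : r1 ≤ l) (hr2 : r2 ≤ l)
    (hE0 : ExOK l (U v0) E0) (hE1 : ExOK l (U v1) E1) (hE2 : ExOK l (U v2) E2)
    (hb : ∀ v, Bdd l (U v)) (h : hB l P E0 E1 E2 v0 v1 v2 k0 r0 r1 k2 r2 = true) :
    Harm l P U v0 v1 v2 k0 r0 r1 k2 r2 := by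
  unfold hB at h
  simp only [Bool.or_eq_true] at h
  rcases h with ((h | h) | h | h) | (h | h) | h | h <;>
    exact hsB_spec l P E0 E1 E2 U v0 v1 v2 k0 r0 r1 k2 r2 _ _ _ (by norm_num) (by norm_num)
      (by norm_num) hr0 hr1 hr2 hE0 hE1 hE2 hb h

end Pool.Agent.Helper413_Mak
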