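import Mathlib
import Pool.Agent.Helper413_Mak.Row

set_option autoImplicit false

/-!
The packed scan over all progressions with a given lag.
-/

namespace Pool.Agent.Helper413_Mak

/-- one point of the torus as a field -/
def enc (a c : ℕ) (p : ℤ × ℤ) : ℕ := (p.1 % 2 ^ a).toNat + 2 ^ c * (p.2 % 2 ^ a).toNat

theorem land_low (a x : ℕ) : Nat.land x (2 ^ a - 1) = x % 2 ^ a := Nat.and_two_pow_sub_one_eq_mod x a

/-- the field mask -/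
def fm (a c : ℕ) : ℕ := (2 ^ a - 1) + 2 ^ c * (2 ^ a - 1)

theorem enc_sum_land (a c x0 y0 x1 y1 x2 y2 : ℕ) (hac : 3 * 2 ^ a ≤ 2 ^ c)
    (hx0 : x0 < 2 ^ a) (hx1 : x1 < 2 ^ a) (hx2 : x2 < 2 ^ a) :
    Nat.land (x0 + 2 ^ c * y0 + (x2 + 2 ^ c * y2) + (x1 + 2 ^ c * y1)) (fm a c)
      = (x0 + x2 + x1) % 2 ^ a + 2 ^ c * ((y0 + y2 + y1) % 2 ^ a) := by
  have h1 : x0 + 2 ^ c * y0 + (x2 + 2 ^ c * y2) + (x1 + 2 ^ c * y1)
      = (x0 + x2 + x1) + 2 ^ c * (y0 + y2 + y1) := by ring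
  rw [h1, fm, land_split c _ _ _ _ (by omega) (by
    have : 0 < 2 ^ a := by positivity
    omega), land_low, land_low]

theorem toNat_emod_lt (a : ℕ) (z : ℤ) : (z % 2 ^ a).toNat < 2 ^ a := by
  have h1 : (0 : ℤ) < 2 ^ a := by positivity
  have h2 := Int.emod_lt_of_pos z h1
  have h3 := Int.emod_nonneg z h1.ne'
  zify
  rw [Int.toNat_of_nonneg h3]
  exact h2

theorem toNat_sum_emod (a : ℕ) (x y z : ℤ) (h : (2 ^ a : ℤ) ∣ x + y + z) :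
    ((x % 2 ^ a).toNat + (y % 2 ^ a).toNat + (z % 2 ^ a).toNat) % 2 ^ a = 0 := by
  have h1 : (0 : ℤ) < 2 ^ a := by positivity
  apply Nat.mod_eq_zero_of_dvd
  zify
  rw [Int.toNat_of_nonneg (Int.emod_nonneg x h1.ne'), Int.toNat_of_nonneg (Int.emod_nonneg y h1.ne'),
    Int.toNat_of_nonneg (Int.emod_nonneg z h1.ne')]
  have h2 : x % 2 ^ a + y % 2 ^ a + z % 2 ^ a
      = (x + y + z) - 2 ^ a * (x / 2 ^ a + y / 2 ^ a + z / 2 ^ a) := by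
    rw [Int.emod_def, Int.emod_def, Int.emod_def]; ring
  rw [h2]
  exact Dvd.dvd.sub h (Dvd.intro _ rfl)

theorem enc_zero (a c : ℕ) (hac : 3 * 2 ^ a ≤ 2 ^ c) (p q m : ℤ × ℤ)
    (h1 : (2 ^ a : ℤ) ∣ p.1 + q.1 - 2 * m.1) (h2 : (2 ^ a : ℤ) ∣ p.2 + q.2 - 2 * m.2) :
    Nat.land (enc a c p + enc a c q + enc a c (-2 * m.1, -2 * m.2)) (fm a c) = 0 := by
  unfold enc
  rw [enc_sum_land a c _ _ _ _ _ _ hac (toNat_emod_lt a _) (toNat_emod_lt a _) (toNat_emod_lt a _),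
    toNat_sum_emod a _ _ _ (by
      have : p.1 + q.1 + -2 * m.1 = p.1 + q.1 - 2 * m.1 := by ring
      rw [this]; exact h1),
    toNat_sum_emod a _ _ _ (by
      have : p.2 + q.2 + -2 * m.2 = p.2 + q.2 - 2 * m.2 := by ring
      rw [this]; exact h2)]
  simp

theorem enc_lt (a c : ℕ) (hac : 3 * 2 ^ a ≤ 2 ^ c) (p : ℤ × ℤ) : 3 * enc a c p < 2 ^ (2 * c) := by
  unfold enc
  have h1 := toNat_emod_lt a p.1
  have h2 := toNat_emod_lt a p.2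
  have h3 : 2 ^ c * (3 * (p.2 % 2 ^ a).toNat + 3) ≤ 2 ^ c * 2 ^ c :=
    Nat.mul_le_mul_left _ (by omega)
  have h4 : (2 : ℕ) ^ (2 * c) = 2 ^ c * 2 ^ c := by rw [two_mul, pow_add]
  rw [h4]
  have h5 : 2 ^ c * (3 * (p.2 % 2 ^ a).toNat + 3) = 3 * (2 ^ c * (p.2 % 2 ^ a).toNat) + 3 * 2 ^ c := by ring
  omega

theorem fm_lt (a c : ℕ) (hac : 3 * 2 ^ a ≤ 2 ^ c) : fm a c < 2 ^ (2 * c) := by
  unfold fm
  have h4 : (2 : ℕ) ^ (2 * c) = 2 ^ c * 2 ^ c := by rw [two_mul, pow_add]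
  have h0 : 0 < 2 ^ a := by positivity
  have h3 : 2 ^ c * ((2 ^ a - 1) + 1) ≤ 2 ^ c * 2 ^ c := Nat.mul_le_mul_left _ (by omega)
  rw [h4]
  have h5 : 2 ^ c * ((2 ^ a - 1) + 1) = 2 ^ c * (2 ^ a - 1) + 2 ^ c := by ring
  omega

/-- cut out `l` fields starting at field `s` -/
def cut (w l A s : ℕ) : ℕ := Nat.mod (Nat.shiftRight A (Nat.mul w s)) (Nat.pow 2 (Nat.mul w l))

/-- leaf test -/
def leafB (l P : ℕ) (d : ℕ) (v0 v1 v2 : Bool) (E0 E1 E2 : ℕ) (r : ℕ) : Bool :=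
  hB l P E0 E1 E2 v0 v1 v2
    (Nat.mod (Nat.div (Nat.add r (Nat.sub (Nat.mul 3 l) d)) l) 3)
    (Nat.mod (Nat.add r (Nat.sub (Nat.mul 3 l) d)) l) r
    (Nat.mod (Nat.div (Nat.add r d) l) 3) (Nat.mod (Nat.add r d) l)

/-- both versions of the middle -/
def cmb (a c l P B0 B1 E0 E1 d : ℕ) (v0 v2 : Bool) (e0 e2 S : ℕ) : Bool :=
  and (bis (Nat.add (Nat.mul 2 c) 1) (leafB l P d v0 false v2 e0 E0 e2) 14 l
      (Nat.land (Nat.add S B0) (Nat.mul (ones (Nat.add (Nat.mul 2 c) 1) l) (fm a c))) 0)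
    (bis (Nat.add (Nat.mul 2 c) 1) (leafB l P d v0 true v2 e0 E1 e2) 14 l
      (Nat.land (Nat.add S B1) (Nat.mul (ones (Nat.add (Nat.mul 2 c) 1) l) (fm a c))) 0)

/-- all versions for one lag -/
def row (a c l P A0 A1 B0 B1 E0 E1 d : ℕ) : Bool :=
  (fun L0 L1 R0 R1 : ℕ =>
    and (and (cmb a c l P B0 B1 E0 E1 d false false E0 E0 (Nat.add L0 R0))
        (cmb a c l P B0 B1 E0 E1 d false true E0 E1 (Nat.add L0 R1)))
      (and (cmb a c l P B0 B1 E0 E1 d true false E1 E0 (Nat.add L1 R0))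
        (cmb a c l P B0 B1 E0 E1 d true true E1 E1 (Nat.add L1 R1))))
    (cut (Nat.add (Nat.mul 2 c) 1) l A0 (Nat.sub (Nat.mul 3 l) d))
    (cut (Nat.add (Nat.mul 2 c) 1) l A1 (Nat.sub (Nat.mul 3 l) d))
    (cut (Nat.add (Nat.mul 2 c) 1) l A0 d) (cut (Nat.add (Nat.mul 2 c) 1) l A1 d)

/-- the long modular array -/
def AOK (a c l : ℕ) (al : ℤ × ℤ) (U : Bool → ℕ → ℤ × ℤ) (v : Bool) (A : ℕ) : Prop :=
  A = pk (2 * c + 1) (fun i => enc a c (Xp l al U v i)) (4 * l)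

/-- the doubled negative array -/
def BOK (a c l : ℕ) (U : Bool → ℕ → ℤ × ℤ) (v : Bool) (B : ℕ) : Prop :=
  B = pk (2 * c + 1) (fun i => enc a c (-2 * (U v i).1, -2 * (U v i).2)) l

theorem enc_lt_w (a c : ℕ) (hac : 3 * 2 ^ a ≤ 2 ^ c) (p : ℤ × ℤ) : enc a c p < 2 ^ (2 * c + 1) := by
  have h := enc_lt a c hac p
  have h2 : (2 : ℕ) ^ (2 * c + 1) = 2 * 2 ^ (2 * c) := by rw [pow_succ]; ring
  omega

theorem cut_spec (a c l s : ℕ) (hac : 3 * 2 ^ a ≤ 2 ^ c) (al : ℤ × ℤ) (U : Bool → ℕ → ℤ × ℤ) (v : Bool)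
    (A : ℕ) (hA : AOK a c l al U v A) (hs : s ≤ 3 * l) :
    cut (2 * c + 1) l A s = pk (2 * c + 1) (fun i => enc a c (Xp l al U v (s + i))) l := by
  change (A >>> ((2 * c + 1) * s)) % 2 ^ ((2 * c + 1) * l) = _
  unfold AOK at hA
  rw [Nat.shiftRight_eq_div_pow, hA, pk_div_le _ _ s (4 * l) (by omega) (fun i _ => enc_lt_w a c hac _),
    pk_mod_le _ _ l (4 * l - s) (by omega) (fun i _ => enc_lt_w a c hac _)]

/-- A modular coincidence with lag `d` and middle `r` in block zero. -/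
def Hit (a l : ℕ) (al : ℤ × ℤ) (U : Bool → ℕ → ℤ × ℤ) (v0 v1 v2 : Bool) (d r : ℕ) : Prop :=
  (2 ^ a : ℤ) ∣ (Xp l al U v0 (r + (3 * l - d))).1 + (Xp l al U v2 (r + d)).1 - 2 * (U v1 r).1 ∧
  (2 ^ a : ℤ) ∣ (Xp l al U v0 (r + (3 * l - d))).2 + (Xp l al U v2 (r + d)).2 - 2 * (U v1 r).2

theorem scan_spec (a c l P : ℕ) (hac : 3 * 2 ^ a ≤ 2 ^ c) (al : ℤ × ℤ) (U : Bool → ℕ → ℤ × ℤ)
    (v0 v1 v2 : Bool) (A0 B1 A2 e0 e1 e2 d : ℕ) (hd : d ≤ 3 * l)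
    (hA0 : AOK a c l al U v0 A0) (hA2 : AOK a c l al U v2 A2) (hB1 : BOK a c l U v1 B1)
    (hE0 : ExOK l (U v0) e0) (hE1 : ExOK l (U v1) e1) (hE2 : ExOK l (U v2) e2)
    (hb : ∀ v, Bdd l (U v))
    (h : bis (2 * c + 1) (leafB l P d v0 v1 v2 e0 e1 e2) 14 l
      (Nat.land (Nat.add (Nat.add (cut (2 * c + 1) l A0 (3 * l - d)) (cut (2 * c + 1) l A2 d)) B1)
        (Nat.mul (ones (2 * c + 1) l) (fm a c))) 0 = true) :
    ∀ r < l, Hit a l al U v0 v1 v2 d r →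
      Harm l P U v0 v1 v2 ((r + (3 * l - d)) / l % 3) ((r + (3 * l - d)) % l) r
        ((r + d) / l % 3) ((r + d) % l) := by
  rw [ones_mul _ _ _ (by omega), cut_spec a c l _ hac al U v0 A0 hA0 (by omega),
    cut_spec a c l _ hac al U v2 A2 hA2 hd, hB1] at h
  have e1' : Nat.add (Nat.add (pk (2 * c + 1) (fun i => enc a c (Xp l al U v0 (3 * l - d + i))) l)
      (pk (2 * c + 1) (fun i => enc a c (Xp l al U v2 (d + i))) l))
      (pk (2 * c + 1) (fun i => enc a c (-2 * (U v1 i).1, -2 * (U v1 i).2)) l)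
      = pk (2 * c + 1) (fun i => enc a c (Xp l al U v0 (3 * l - d + i))
        + enc a c (Xp l al U v2 (d + i)) + enc a c (-2 * (U v1 i).1, -2 * (U v1 i).2)) l := by
    rw [← pk_add, ← pk_add]
    rfl
  have hw : (2 : ℕ) ^ (2 * c + 1) = 2 * 2 ^ (2 * c) := by rw [pow_succ]; ring
  have hfm := fm_lt a c hac
  rw [e1', pk_land _ _ _ _ (by
      intro i _
      have h1 := enc_lt a c hac (Xp l al U v0 (3 * l - d + i))
      have h2 := enc_lt a c hac (Xp l al U v2 (d + i))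
      have h3 := enc_lt a c hac (-2 * (U v1 i).1, -2 * (U v1 i).2)
      omega) (by
      intro i _
      omega)] at h
  intro r hr hit
  have hl : 0 < l := by omega
  have key := bis_spec (2 * c + 1) (by omega) _ 14 l _ 0 _ rfl (by
    intro i _
    have h1 : Nat.land (enc a c (Xp l al U v0 (3 * l - d + i))
        + enc a c (Xp l al U v2 (d + i)) + enc a c (-2 * (U v1 i).1, -2 * (U v1 i).2)) (fm a c)
        ≤ fm a c := Nat.and_le_right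
    have h2 : 2 * c + 1 - 1 = 2 * c := by omega
    rw [h2]
    omega) h r hr (by
    have h0 := enc_zero a c hac (Xp l al U v0 (3 * l - d + r)) (Xp l al U v2 (d + r)) (U v1 r)
      (by rw [add_comm _ r, add_comm d r]; exact hit.1) (by rw [add_comm _ r, add_comm d r]; exact hit.2)
    exact h0)
  rw [zero_add] at key
  exact hB_spec l P e0 e1 e2 U v0 v1 v2 _ _ _ _ _ (Nat.mod_lt _ hl).le hr.le (Nat.mod_lt _ hl).le
    hE0 hE1 hE2 hb key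

theorem row_spec (a c l P : ℕ) (hac : 3 * 2 ^ a ≤ 2 ^ c) (al : ℤ × ℤ) (U : Bool → ℕ → ℤ × ℤ)
    (A0 A1 B0 B1 E0 E1 d : ℕ) (hd : d ≤ 3 * l)
    (hA0 : AOK a c l al U false A0) (hA1 : AOK a c l al U true A1)
    (hB0 : BOK a c l U false B0) (hB1 : BOK a c l U true B1)
    (hE0 : ExOK l (U false) E0) (hE1 : ExOK l (U true) E1) (hb : ∀ v, Bdd l (U v))
    (h : row a c l P A0 A1 B0 B1 E0 E1 d = true) :
    ∀ v0 v1 v2 : Bool, ∀ r < l, Hit a l al U v0 v1 v2 d r →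
      Harm l P U v0 v1 v2 ((r + (3 * l - d)) / l % 3) ((r + (3 * l - d)) % l) r
        ((r + d) / l % 3) ((r + d) % l) := by
  unfold row cmb at h
  simp only [Bool.and_eq_true] at h
  obtain ⟨⟨⟨h1, h2⟩, h3, h4⟩, ⟨h5, h6⟩, h7, h8⟩ := h
  intro v0 v1 v2
  cases v0 <;> cases v1 <;> cases v2
  · exact scan_spec a c l P hac al U _ _ _ A0 B0 A0 E0 E0 E0 d hd hA0 hA0 hB0 hE0 hE0 hE0 hb h1
  · exact scan_spec a c l P hac al U _ _ _ A0 B0 A1 E0 E0 E1 d hd hA0 hA1 hB0 hE0 hE0 hE1 hb h3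
  · exact scan_spec a c l P hac al U _ _ _ A0 B1 A0 E0 E1 E0 d hd hA0 hA0 hB1 hE0 hE1 hE0 hb h2
  · exact scan_spec a c l P hac al U _ _ _ A0 B1 A1 E0 E1 E1 d hd hA0 hA1 hB1 hE0 hE1 hE1 hb h4
  · exact scan_spec a c l P hac al U _ _ _ A1 B0 A0 E1 E0 E0 d hd hA1 hA0 hB0 hE1 hE0 hE0 hb h5
  · exact scan_spec a c l P hac al U _ _ _ A1 B0 A1 E1 E0 E1 d hd hA1 hA1 hB0 hE1 hE0 hE1 hb h7
  · exact scan_spec a c l P hac al U _ _ _ A1 B1 A0 E1 E1 E0 d hd hA1 hA0 hB1 hE1 hE1 hE0 hb h6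
  · exact scan_spec a c l P hac al U _ _ _ A1 B1 A1 E1 E1 E1 d hd hA1 hA1 hB1 hE1 hE1 hE1 hb h8

end Pool.Agent.Helper413_Mak
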