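import Mathlib
import Pool.Agent.Helper413_Mak.Scan

set_option autoImplicit false

/-!
The descent: a long progression of the walk gives a shorter one of the coarse walk.
-/

namespace Pool.Agent.Helper413_Mak

theorem Rm_mod (k : ℕ) (p : ℤ × ℤ) : Rm (k % 3) p = Rm k p := by simp [Rm]

theorem Gm_mod (al : ℤ × ℤ) (k : ℕ) : Gm al (k % 3) = Gm al k := by simp [Gm]

theorem mod3_cases (k : ℕ) : k % 3 = 0 ∨ k % 3 = 1 ∨ k % 3 = 2 := by omega

theorem Rm_add (k : ℕ) (p q : ℤ × ℤ) : Rm k (p + q) = Rm k p + Rm k q := by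
  rcases mod3_cases k with h | h | h <;> simp [Rm, h, Prod.ext_iff] <;> constructor <;> ring

theorem Rm_sub (k : ℕ) (p q : ℤ × ℤ) : Rm k (p - q) = Rm k p - Rm k q := by
  rcases mod3_cases k with h | h | h <;> simp [Rm, h, Prod.ext_iff] <;> constructor <;> ring

theorem Rm_Rm (j k : ℕ) (p : ℤ × ℤ) : Rm j (Rm k p) = Rm (j + k) p := by
  rcases mod3_cases j with h | h | h <;> rcases mod3_cases k with h' | h' | h' <;>
    simp [Rm, h, h', Nat.add_mod, Prod.ext_iff] <;> ring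

theorem Gm_add (al : ℤ × ℤ) (j k : ℕ) : Gm al (j + k) = Gm al j + Rm j (Gm al k) := by
  rcases mod3_cases j with h | h | h <;> rcases mod3_cases k with h' | h' | h' <;>
    simp [Rm, Gm, h, h', Nat.add_mod, Prod.ext_iff] <;> ring

theorem Rm_dvd (m : ℤ) (k : ℕ) (p : ℤ × ℤ) (h1 : m ∣ p.1) (h2 : m ∣ p.2) :
    m ∣ (Rm k p).1 ∧ m ∣ (Rm k p).2 := by
  rcases mod3_cases k with h | h | h
  · simp only [Rm, h, if_true]; exact ⟨h1, h2⟩
  · simp only [Rm, h]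
    exact ⟨(dvd_neg).2 h2, Dvd.dvd.sub h1 h2⟩
  · simp only [Rm, h]
    exact ⟨Dvd.dvd.sub h2 h1, (dvd_neg).2 h1⟩

/-- The walk `Z` refines the coarse walk `W`. -/
def Ref (l m : ℕ) (al : ℤ × ℤ) (U : Bool → ℕ → ℤ × ℤ) (z : ℕ → Bool) (W Z : ℕ → ℤ × ℤ) : Prop :=
  ∀ j r, r ≤ l → Z (l * j + r) = Gm al j + (m : ℤ) • W j + Rm j (U (z j) r)

/-- The finite check, as a statement on all lags `d < 3 l` divisible by `g`. -/
def Chk (a l P g : ℕ) (al : ℤ × ℤ) (U : Bool → ℕ → ℤ × ℤ) : Prop :=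
  ∀ d < 3 * l, g ∣ d → ∀ v0 v1 v2 : Bool, ∀ r < l, Hit a l al U v0 v1 v2 d r →
      Harm l P U v0 v1 v2 ((r + (3 * l - d)) / l % 3) ((r + (3 * l - d)) % l) r
        ((r + d) / l % 3) ((r + d) % l)

theorem Hit.swap {a l : ℕ} {al : ℤ × ℤ} {U : Bool → ℕ → ℤ × ℤ} {v0 v1 v2 : Bool} {d r : ℕ}
    (hd : d ≤ 3 * l) (h : Hit a l al U v0 v1 v2 d r) : Hit a l al U v2 v1 v0 (3 * l - d) r := by
  unfold Hit at h ⊢
  have e : 3 * l - (3 * l - d) = d := by omega
  rw [e, add_comm (Xp l al U v2 (r + d)).1, add_comm (Xp l al U v2 (r + d)).2]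
  exact h

/-- it is enough to check half of the lags -/
theorem chk_of_half (a l P g : ℕ) (al : ℤ × ℤ) (U : Bool → ℕ → ℤ × ℤ) (hg : g ∣ 3 * l)
    (h : ∀ d, 2 * d ≤ 3 * l → g ∣ d → ∀ v0 v1 v2 : Bool, ∀ r < l, Hit a l al U v0 v1 v2 d r →
      Harm l P U v0 v1 v2 ((r + (3 * l - d)) / l % 3) ((r + (3 * l - d)) % l) r
        ((r + d) / l % 3) ((r + d) % l)) : Chk a l P g al U := by
  intro d hd hgd v0 v1 v2 r hr hit
  by_cases h2 : 2 * d ≤ 3 * l
  · exact h d h2 hgd v0 v1 v2 r hr hit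
  · have h3 := h (3 * l - d) (by omega) (Nat.dvd_sub hg hgd) v2 v1 v0 r hr (hit.swap hd.le)
    have e : 3 * l - (3 * l - d) = d := by omega
    rw [e] at h3
    exact h3.swap

theorem Xp_of_mod (l : ℕ) (al : ℤ × ℤ) (U : Bool → ℕ → ℤ × ℤ) (v : Bool) (j k r : ℕ)
    (hr : r < l) (h : j % (3 * l) = l * k + r) :
    Xp l al U v j = Gm al k + Rm k (U v r) ∧ j / l % 3 = k ∧ j % l = r := by
  have h1 : j % l = r := by
    have : j % (l * 3) % l = j % l := Nat.mod_mul_right_mod j l 3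
    rw [← this, mul_comm l 3, h, Nat.mul_add_mod, Nat.mod_eq_of_lt hr]
  have h2 : j / l % 3 = k := by
    have : j % (l * 3) / l = j / l % 3 := Nat.mod_mul_right_div_self j l 3
    rw [← this, mul_comm l 3, h, Nat.mul_add_div (by omega), Nat.div_eq_of_lt hr, add_zero]
  refine ⟨?_, h2, h1⟩
  unfold Xp
  rw [← Rm_mod, ← Gm_mod, h2, h1]

theorem half_a (l j1 j2 r1 r2 d : ℕ) (hr2 : r2 < l) (h : l * j2 + r2 = l * j1 + r1 + d) (hj : j1 ≤ j2) :
    (r1 + d % (3 * l)) % (3 * l) = l * ((j2 + 2 * j1) % 3) + r2 := by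
  obtain ⟨J, rfl⟩ := Nat.exists_eq_add_of_le hj
  have e1 : r1 + d = l * J + r2 := by
    have : l * (j1 + J) = l * j1 + l * J := mul_add _ _ _
    omega
  have e2 : (j1 + J + 2 * j1) % 3 = J % 3 := by omega
  rw [Nat.add_mod_mod, e1, e2]
  have h3 : J = 3 * (J / 3) + J % 3 := by omega
  have h4 : l * J + r2 = 3 * l * (J / 3) + (l * (J % 3) + r2) := by
    calc l * J + r2 = l * (3 * (J / 3) + J % 3) + r2 := by rw [← h3]
      _ = _ := by ring
  rw [h4, Nat.mul_add_mod]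
  apply Nat.mod_eq_of_lt
  have h5 : J % 3 < 3 := Nat.mod_lt _ (by norm_num)
  have h6 : l * (J % 3) ≤ l * 2 := Nat.mul_le_mul_left _ (by omega)
  omega

theorem half_b (l j0 j1 r0 r1 d : ℕ) (hr0 : r0 < l) (h : l * j1 + r1 = l * j0 + r0 + d) (hj : j0 ≤ j1) :
    (r1 + (3 * l - d % (3 * l))) % (3 * l) = l * ((j0 + 2 * j1) % 3) + r0 := by
  obtain ⟨J, rfl⟩ := Nat.exists_eq_add_of_le hj
  have hl : 0 < 3 * l := by omega
  have e1 : r0 + d = l * J + r1 := by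
    have : l * (j0 + J) = l * j0 + l * J := mul_add _ _ _
    omega
  have hlt := Nat.mod_lt d hl
  have h3 : J = 3 * (J / 3) + J % 3 := by omega
  have hk : (j0 + 2 * (j0 + J)) % 3 = (2 * (J % 3)) % 3 := by omega
  rw [hk]
  have hd : d = 3 * l * (d / (3 * l)) + d % (3 * l) := (Nat.div_add_mod d (3 * l)).symm
  have h4 : l * J = 3 * l * (J / 3) + l * (J % 3) := by
    calc l * J = l * (3 * (J / 3) + J % 3) := by rw [← h3]
      _ = _ := by ring
  have hr : l * ((2 * (J % 3)) % 3) + r0 < 3 * l := by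
    have h5 : (2 * (J % 3)) % 3 < 3 := Nat.mod_lt _ (by norm_num)
    have h6 : l * ((2 * (J % 3)) % 3) ≤ l * 2 := Nat.mul_le_mul_left _ (by omega)
    omega
  have key : (r1 + (3 * l - d % (3 * l))) ≡ (l * ((2 * (J % 3)) % 3) + r0) [MOD 3 * l] := by
    apply Nat.ModEq.add_right_cancel' (d % (3 * l))
    have e3 : r1 + (3 * l - d % (3 * l)) + d % (3 * l) = r1 + 3 * l := by omega
    rw [e3]
    have e4 : (r1 + 3 * l) ≡ r1 [MOD 3 * l] := by simp [Nat.ModEq]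
    refine e4.trans ?_
    apply Nat.ModEq.symm
    have e5 : l * ((2 * (J % 3)) % 3) + r0 + d % (3 * l) ≡ l * ((2 * (J % 3)) % 3) + r0 + d [MOD 3 * l] := by
      exact Nat.ModEq.add_left _ (Nat.mod_modEq d (3 * l))
    refine e5.trans ?_
    have e6 : l * ((2 * (J % 3)) % 3) + r0 + d = l * ((2 * (J % 3)) % 3) + l * J + r1 := by omega
    rw [e6]
    have e7 : l * ((2 * (J % 3)) % 3) + l * J + r1
        = 3 * l * ((J % 3 + (2 * (J % 3)) % 3) / 3 + J / 3) + r1 := by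
      have e8 : J % 3 + (2 * (J % 3)) % 3 = 3 * ((J % 3 + (2 * (J % 3)) % 3) / 3) := by omega
      have e9 : l * ((2 * (J % 3)) % 3) + l * (J % 3)
          = 3 * l * ((J % 3 + (2 * (J % 3)) % 3) / 3) := by
        calc l * ((2 * (J % 3)) % 3) + l * (J % 3) = l * (J % 3 + (2 * (J % 3)) % 3) := by ring
          _ = l * (3 * ((J % 3 + (2 * (J % 3)) % 3) / 3)) := by rw [← e8]
          _ = _ := by ring
      rw [mul_add (3 * l), ← e9, h4]; ring
    rw [e7]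
    simp [Nat.ModEq]
  rw [Nat.ModEq, Nat.mod_eq_of_lt hr] at key
  exact key

theorem Rm_zero (k : ℕ) : Rm k (0, 0) = (0, 0) := by
  rcases mod3_cases k with h | h | h <;> simp [Rm, h]

theorem side_eq (l m : ℕ) (al : ℤ × ℤ) (U : Bool → ℕ → ℤ × ℤ) (z : ℕ → Bool) (W Z : ℕ → ℤ × ℤ)
    (hZ : Ref l m al U z W Z) (hU : ∀ v, U v 0 = (0, 0)) (j r s : ℕ) (hs : s ≤ 1) (hr : r ≤ l) :
    Z (l * j + r) = Gm al (j + s) + (m : ℤ) • W (j + s) + Rm (j + s) (Ex l U s (z j) r) := by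
  interval_cases s
  · simp only [Ex, if_true, add_zero]
    exact hZ j r hr
  · have h1 := hZ j l le_rfl
    have h2 := hZ (j + 1) 0 (by omega)
    have h3 := hZ j r hr
    unfold Ex
    rw [if_neg (by norm_num), Rm_Rm, Rm_sub]
    have e1 : Rm (j + 1 + 2) (U (z j) r) = Rm j (U (z j) r) := by
      rw [← Rm_mod (j + 1 + 2), ← Rm_mod j]; congr 1; omega
    have e2 : Rm (j + 1 + 2) (U (z j) l) = Rm j (U (z j) l) := by
      rw [← Rm_mod (j + 1 + 2), ← Rm_mod j]; congr 1; omega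
    rw [e1, e2, h3]
    have e3 : l * j + l = l * (j + 1) + 0 := by ring
    rw [e3, h2, hU, Rm_zero] at h1
    have e4 : Gm al (j + 1) + (m : ℤ) • W (j + 1) = Gm al j + (m : ℤ) • W j + Rm j (U (z j) l) := by
      rw [← h1]
      simp [Prod.ext_iff]
    rw [e4]
    abel

theorem Gm_congr (al : ℤ × ℤ) (j k : ℕ) (h : j % 3 = k % 3) : Gm al j = Gm al k := by
  rw [← Gm_mod al j, ← Gm_mod al k, h]

theorem Rm_congr (j k : ℕ) (p : ℤ × ℤ) (h : j % 3 = k % 3) : Rm j p = Rm k p := by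
  rw [← Rm_mod j, ← Rm_mod k, h]

theorem descent (a l P g : ℕ) (al : ℤ × ℤ) (U : Bool → ℕ → ℤ × ℤ) (z : ℕ → Bool)
    (W Z : ℕ → ℤ × ℤ) (hl : 0 < l) (hP : 1 ≤ P) (hg : g ∣ 3 * l)
    (hZ : Ref l (2 ^ a) al U z W Z) (hU : ∀ v, U v 0 = (0, 0)) (hC : Chk a l P g al U)
    (p d : ℕ) (hd : P ≤ d) (hgd : g ∣ d)
    (h : Z p + Z (p + 2 * d) = Z (p + d) + Z (p + d)) :
    ∃ j q, 1 ≤ q ∧ W j + W (j + 6 * q) = W (j + 3 * q) + W (j + 3 * q) ∧
      3 * q * l < d + 2 * l := by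
  obtain ⟨j0, r0, hp0, hr0⟩ : ∃ j r, p = l * j + r ∧ r < l :=
    ⟨p / l, p % l, (Nat.div_add_mod p l).symm, Nat.mod_lt _ hl⟩
  obtain ⟨j1, r1, hp1, hr1⟩ : ∃ j r, p + d = l * j + r ∧ r < l :=
    ⟨(p + d) / l, (p + d) % l, (Nat.div_add_mod _ l).symm, Nat.mod_lt _ hl⟩
  obtain ⟨j2, r2, hp2, hr2⟩ : ∃ j r, p + 2 * d = l * j + r ∧ r < l :=
    ⟨(p + 2 * d) / l, (p + 2 * d) % l, (Nat.div_add_mod _ l).symm, Nat.mod_lt _ hl⟩
  have hj01 : j0 ≤ j1 := by
    by_contra hc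
    have h1 : l * (j1 + 1) ≤ l * j0 := Nat.mul_le_mul_left _ (by omega)
    rw [mul_add] at h1
    omega
  have hj12 : j1 ≤ j2 := by
    by_contra hc
    have h1 : l * (j2 + 1) ≤ l * j1 := Nat.mul_le_mul_left _ (by omega)
    rw [mul_add] at h1
    omega
  have ha := half_a l j1 j2 r1 r2 d hr2 (by omega) hj12
  have hb := half_b l j0 j1 r0 r1 d hr0 (by omega) hj01
  have hd3 : d % (3 * l) < 3 * l := Nat.mod_lt _ (by omega)
  have hgd3 : g ∣ d % (3 * l) := (Nat.dvd_mod_iff hg).2 hgd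
  obtain ⟨x0, k0e, r0e⟩ := Xp_of_mod l al U (z j0) _ _ _ hr0 hb
  obtain ⟨x2, k2e, r2e⟩ := Xp_of_mod l al U (z j2) _ _ _ hr2 ha
  set k0 := (j0 + 2 * j1) % 3 with hk0
  set k2 := (j2 + 2 * j1) % 3 with hk2
  -- the coincidence modulo `2 ^ a`
  have hE : Rm j1 (Gm al k0 + Rm k0 (U (z j0) r0) + (Gm al k2 + Rm k2 (U (z j2) r2))
      - (U (z j1) r1 + U (z j1) r1)) = ((2 ^ a : ℕ) : ℤ) • (W j1 + W j1 - W j0 - W j2) := by
    have z0 := hZ j0 r0 hr0.le
    have z1 := hZ j1 r1 hr1.le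
    have z2 := hZ j2 r2 hr2.le
    rw [← hp0] at z0
    rw [← hp1] at z1
    rw [← hp2] at z2
    rw [z0, z1, z2] at h
    have g0 : Gm al j0 = Gm al j1 + Rm j1 (Gm al k0) := by
      rw [← Gm_add]; exact Gm_congr _ _ _ (by omega)
    have g2 : Gm al j2 = Gm al j1 + Rm j1 (Gm al k2) := by
      rw [← Gm_add]; exact Gm_congr _ _ _ (by omega)
    have m0 : Rm j0 (U (z j0) r0) = Rm j1 (Rm k0 (U (z j0) r0)) := by
      rw [Rm_Rm]; exact Rm_congr _ _ _ (by omega)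
    have m2 : Rm j2 (U (z j2) r2) = Rm j1 (Rm k2 (U (z j2) r2)) := by
      rw [Rm_Rm]; exact Rm_congr _ _ _ (by omega)
    rw [g0, g2, m0, m2] at h
    rw [Rm_sub, Rm_add, Rm_add, Rm_add, Rm_add]
    have h1 := congrArg Prod.fst h
    have h2 := congrArg Prod.snd h
    simp only [Prod.fst_add, Prod.snd_add, Prod.smul_fst, Prod.smul_snd, smul_eq_mul] at h1 h2
    apply Prod.ext
    · simp only [Prod.fst_add, Prod.fst_sub, Prod.smul_fst, smul_eq_mul]
      linarith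
    · simp only [Prod.snd_add, Prod.snd_sub, Prod.smul_snd, smul_eq_mul]
      linarith
  have hdv : ((2 : ℤ) ^ a ∣ (Gm al k0 + Rm k0 (U (z j0) r0) + (Gm al k2 + Rm k2 (U (z j2) r2))
      - (U (z j1) r1 + U (z j1) r1)).1) ∧ ((2 : ℤ) ^ a ∣ (Gm al k0 + Rm k0 (U (z j0) r0) +
      (Gm al k2 + Rm k2 (U (z j2) r2)) - (U (z j1) r1 + U (z j1) r1)).2) := by
    have h1 := congrArg (Rm (2 * j1)) hE
    rw [Rm_Rm] at h1
    have h2 : ∀ q : ℤ × ℤ, Rm (2 * j1 + j1) q = q := by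
      intro q
      have : Rm (2 * j1 + j1) q = Rm 0 q := Rm_congr _ _ _ (by omega)
      rw [this]; simp [Rm]
    rw [h2] at h1
    rw [h1]
    apply Rm_dvd
    · simp
    · simp
  have hit : Hit a l al U (z j0) (z j1) (z j2) (d % (3 * l)) r1 := by
    unfold Hit
    rw [x0, x2]
    constructor
    · have := hdv.1
      simp only [Prod.fst_add, Prod.fst_sub] at this ⊢
      rw [two_mul]; exact this
    · have := hdv.2
      simp only [Prod.snd_add, Prod.snd_sub] at this ⊢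
      rw [two_mul]; exact this
  have hh := hC _ hd3 hgd3 (z j0) (z j1) (z j2) r1 hr1 hit
  rw [k0e, r0e, k2e, r2e] at hh
  obtain ⟨s0, s1, s2, hs0, hs1, hs2, c0, c2, hpos, ex1, ex2, hdis⟩ := hh
  have e0 := side_eq l (2 ^ a) al U z W Z hZ hU j0 r0 s0 hs0 hr0.le
  have e1 := side_eq l (2 ^ a) al U z W Z hZ hU j1 r1 s1 hs1 hr1.le
  have e2 := side_eq l (2 ^ a) al U z W Z hZ hU j2 r2 s2 hs2 hr2.le
  rw [← hp0] at e0
  rw [← hp1] at e1
  rw [← hp2] at e2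
  have m0 : (j0 + s0) % 3 = (j1 + s1) % 3 := by omega
  have m2 : (j2 + s2) % 3 = (j1 + s1) % 3 := by omega
  rw [Gm_congr al _ _ m0, Rm_congr _ _ _ m0] at e0
  rw [Gm_congr al _ _ m2, Rm_congr _ _ _ m2] at e2
  have hex : Ex l U s0 (z j0) r0 + Ex l U s2 (z j2) r2 = Ex l U s1 (z j1) r1 + Ex l U s1 (z j1) r1 := by
    apply Prod.ext
    · simp only [Prod.fst_add]; linarith
    · simp only [Prod.snd_add]; linarith
  have hR := congrArg (Rm (j1 + s1)) hex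
  rw [Rm_add, Rm_add] at hR
  have hWW : W (j0 + s0) + W (j2 + s2) = W (j1 + s1) + W (j1 + s1) := by
    rw [e0, e1, e2] at h
    have h1 := congrArg Prod.fst h
    have h2 := congrArg Prod.snd h
    have h3 := congrArg Prod.fst hR
    have h4 := congrArg Prod.snd hR
    simp only [Prod.fst_add, Prod.snd_add, Prod.smul_fst, Prod.smul_snd, smul_eq_mul] at h1 h2 h3 h4
    have hm : (((2 ^ a : ℕ) : ℤ)) ≠ 0 := by positivity
    apply Prod.ext
    · simp only [Prod.fst_add]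
      apply mul_left_cancel₀ hm
      linarith
    · simp only [Prod.snd_add]
      apply mul_left_cancel₀ hm
      linarith
  -- the coarse positions
  have hmul0 : l * (j0 + s0) = l * j0 + l * s0 := mul_add _ _ _
  have hmul1 : l * (j1 + s1) = l * j1 + l * s1 := mul_add _ _ _
  have hmul2 : l * (j2 + s2) = l * j2 + l * s2 := mul_add _ _ _
  have hls : l * (s0 + s2) = l * s0 + l * s2 := mul_add _ _ _
  have hls1 : 2 * l * s1 = 2 * (l * s1) := mul_assoc _ _ _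
  have hs0l : l * s0 ≤ l * 1 := Nat.mul_le_mul_left _ hs0
  have hs1l : l * s1 ≤ l * 1 := Nat.mul_le_mul_left _ hs1
  have hsum : (j0 + s0) + (j2 + s2) = 2 * (j1 + s1) := by
    have h1 : l * ((j0 + s0) + (j2 + s2)) = l * (2 * (j1 + s1)) := by
      rw [mul_add, mul_left_comm l 2]
      omega
    exact Nat.eq_of_mul_eq_mul_left hl h1
  have hle : j0 + s0 ≤ j1 + s1 := by
    by_contra hc
    have h1 : l * (j1 + s1 + 3) ≤ l * (j0 + s0) := Nat.mul_le_mul_left _ (by omega)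
    rw [mul_add] at h1
    omega
  rcases Nat.eq_or_lt_of_le hle with heq | hlt
  · exfalso
    have h1 : l * (j0 + s0) = l * (j1 + s1) := by rw [heq]
    have heq2 : j2 + s2 = j1 + s1 := by omega
    rcases hdis with h2 | h2 | h2 | h2
    · omega
    · have : j0 = j1 := by omega
      exact h2.2 (by rw [this])
    · have : j0 = j2 := by omega
      exact h2.2 (by rw [this])
    · have : j1 = j2 := by omega
      exact h2.2 (by rw [this])
  · obtain ⟨q, hq⟩ : ∃ q, j1 + s1 = j0 + s0 + 3 * q := ⟨(j1 + s1 - (j0 + s0)) / 3, by omega⟩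
    refine ⟨j0 + s0, q, by omega, ?_, ?_⟩
    · have e3 : j2 + s2 = j0 + s0 + 6 * q := by omega
      rw [← hq, ← e3]
      exact hWW
    · have h1 : l * (j1 + s1) = l * (j0 + s0) + l * (3 * q) := by rw [hq, mul_add]
      have h2 : 3 * q * l = l * (3 * q) := mul_comm _ _
      omega

end Pool.Agent.Helper413_Mak
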