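import Mathlib
import Pool.Agent.Helper413_Mak.Bld
import Pool.Agent.Helper413_Mak.Desc

set_option autoImplicit false

/-!
The arrays of the scan, computed from the letters.
-/

namespace Pool.Agent.Helper413_Mak

/-- walk with step `D` of the digits of `L` -/
def walk (D : ℕ → ℤ × ℤ) (L n : ℕ) : ℤ × ℤ := ∑ i ∈ Finset.range n, D (dg L i)

theorem walk_zero (D : ℕ → ℤ × ℤ) (L : ℕ) : walk D L 0 = (0, 0) := by simp [walk]; rfl

theorem walk_succ (D : ℕ → ℤ × ℤ) (L n : ℕ) : walk D L (n + 1) = walk D L n + D (dg L n) := by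
  simp [walk, Finset.sum_range_succ]

/-- a field from two sums -/
def ef (a c x y : ℕ) : ℕ :=
  Nat.add (Nat.mod x (Nat.pow 2 a)) (Nat.mul (Nat.pow 2 c) (Nat.mod y (Nat.pow 2 a)))

/-- digit table -/
def tb (T i : ℕ) : ℕ := Nat.mod (Nat.shiftRight T (Nat.mul 20 i)) 1048576

theorem dg_lt (L i : ℕ) : dg L i < 4 := Nat.mod_lt _ (by norm_num)

theorem ps_cast (a : ℕ) (N : ℕ → ℕ) (D : ℕ → ℤ) (L n x : ℕ) (o : ℤ)
    (hx : (2 ^ a : ℤ) ∣ o - x) (hN : ∀ i < 4, (2 ^ a : ℤ) ∣ D i - N i) :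
    (2 ^ a : ℤ) ∣ (o + ∑ i ∈ Finset.range n, D (dg L i)) - ((x + ps N L n : ℕ) : ℤ) := by
  induction n with
  | zero => simpa [ps_zero] using hx
  | succ n ih =>
    rw [ps_succ, Finset.sum_range_succ]
    have h := hN _ (dg_lt L n)
    have e : o + (∑ i ∈ Finset.range n, D (dg L i) + D (dg L n)) - ((x + (ps N L n + N (dg L n)) : ℕ) : ℤ)
        = (o + ∑ i ∈ Finset.range n, D (dg L i)) - ((x + ps N L n : ℕ) : ℤ) + (D (dg L n) - N (dg L n)) := by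
      push_cast; ring
    rw [e]
    exact Dvd.dvd.add ih h

theorem emod_toNat_of_dvd (a x : ℕ) (z : ℤ) (h : (2 ^ a : ℤ) ∣ z - x) :
    (z % 2 ^ a).toNat = x % 2 ^ a := by
  have h1 : z % 2 ^ a = (x : ℤ) % 2 ^ a := (Int.modEq_iff_dvd.2 h).symm
  rw [h1]
  have h2 : ((x : ℤ) % 2 ^ a) = ((x % 2 ^ a : ℕ) : ℤ) := by push_cast; rfl
  rw [h2, Int.toNat_natCast]

theorem walk_fst (D : ℕ → ℤ × ℤ) (L n : ℕ) :
    (walk D L n).1 = ∑ i ∈ Finset.range n, (D (dg L i)).1 := by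
  induction n with
  | zero => simp [walk_zero]
  | succ n ih => rw [walk_succ, Finset.sum_range_succ, Prod.fst_add, ih]

theorem walk_snd (D : ℕ → ℤ × ℤ) (L n : ℕ) :
    (walk D L n).2 = ∑ i ∈ Finset.range n, (D (dg L i)).2 := by
  induction n with
  | zero => simp [walk_zero]
  | succ n ih => rw [walk_succ, Finset.sum_range_succ, Prod.snd_add, ih]

theorem bld_walk (a c w : ℕ) (D : ℕ → ℤ × ℤ) (o : ℤ × ℤ) (NX NY : ℕ → ℕ) (K L x y : ℕ)
    (hx : (2 ^ a : ℤ) ∣ o.1 - x) (hy : (2 ^ a : ℤ) ∣ o.2 - y)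
    (hX : ∀ i < 4, (2 ^ a : ℤ) ∣ (D i).1 - NX i) (hY : ∀ i < 4, (2 ^ a : ℤ) ∣ (D i).2 - NY i) :
    bld (ef a c) w NX NY K L x y = pk w (fun i => enc a c (o + walk D L i)) (2 ^ K) := by
  rw [bld_spec]
  apply pk_congr
  intro i _
  have h1 := ps_cast a NX (fun j => (D j).1) L i x o.1 hx hX
  have h2 := ps_cast a NY (fun j => (D j).2) L i y o.2 hy hY
  unfold enc
  rw [Prod.fst_add, Prod.snd_add, walk_fst, walk_snd, emod_toNat_of_dvd a _ _ h1,
    emod_toNat_of_dvd a _ _ h2]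
  rfl

theorem Rm_walk (D : ℕ → ℤ × ℤ) (k L n : ℕ) : Rm k (walk D L n) = walk (fun i => Rm k (D i)) L n := by
  induction n with
  | zero => rw [walk_zero, walk_zero, Rm_zero]
  | succ n ih => rw [walk_succ, walk_succ, Rm_add, ih]

/-- certificate of a table pair for the steps `D` -/
def tbB (a : ℕ) (TX TY : ℕ) (D : ℕ → ℤ × ℤ) : Prop :=
  ∀ i < 4, (2 ^ a : ℤ) ∣ (D i).1 - tb TX i ∧ (2 ^ a : ℤ) ∣ (D i).2 - tb TY i

/-- one block of an array -/
def blk (a c l K L TX TY x y : ℕ) : ℕ :=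
  Nat.mod (bld (ef a c) (Nat.add (Nat.mul 2 c) 1) (tb TX) (tb TY) K L x y)
    (Nat.pow 2 (Nat.mul (Nat.add (Nat.mul 2 c) 1) l))

theorem blk_spec (a c l K L TX TY x y : ℕ) (D : ℕ → ℤ × ℤ) (o : ℤ × ℤ) (hac : 3 * 2 ^ a ≤ 2 ^ c)
    (hK : l ≤ 2 ^ K) (hx : (2 ^ a : ℤ) ∣ o.1 - x) (hy : (2 ^ a : ℤ) ∣ o.2 - y) (hT : tbB a TX TY D) :
    blk a c l K L TX TY x y = pk (2 * c + 1) (fun i => enc a c (o + walk D L i)) l := by
  have h := bld_walk a c (2 * c + 1) D o (tb TX) (tb TY) K L x y hx hy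
    (fun i hi => (hT i hi).1) (fun i hi => (hT i hi).2)
  change bld (ef a c) (2 * c + 1) (tb TX) (tb TY) K L x y % 2 ^ ((2 * c + 1) * l) = _
  rw [h]
  exact pk_mod_le _ _ l _ hK (fun i _ => enc_lt_w a c hac _)

/-- four blocks together -/
def asm4 (w l b0 b1 b2 : ℕ) : ℕ :=
  Nat.add b0 (Nat.mul (Nat.pow 2 (Nat.mul w l)) (Nat.add b1 (Nat.mul (Nat.pow 2 (Nat.mul w l))
    (Nat.add b2 (Nat.mul (Nat.pow 2 (Nat.mul w l)) b0)))))

theorem asm4_spec (a c l : ℕ) (al : ℤ × ℤ) (U : Bool → ℕ → ℤ × ℤ) (v : Bool) (b0 b1 b2 : ℕ)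
    (h0 : b0 = pk (2 * c + 1) (fun i => enc a c (Gm al 0 + Rm 0 (U v i))) l)
    (h1 : b1 = pk (2 * c + 1) (fun i => enc a c (Gm al 1 + Rm 1 (U v i))) l)
    (h2 : b2 = pk (2 * c + 1) (fun i => enc a c (Gm al 2 + Rm 2 (U v i))) l) :
    AOK a c l al U v (asm4 (2 * c + 1) l b0 b1 b2) := by
  unfold AOK
  have e : 4 * l = l + (l + (l + l)) := by ring
  rw [e, pk_split, pk_split _ _ l (l + l), pk_split _ _ l l]
  have X : ∀ (k i : ℕ), i < l → Xp l al U v (l * k + i) = Gm al k + Rm k (U v i) := by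
    intro k i hi
    unfold Xp
    rw [Nat.mul_add_div (by omega), Nat.div_eq_of_lt hi, Nat.mul_add_mod, Nat.mod_eq_of_lt hi, add_zero]
  have p0 : pk (2 * c + 1) (fun i => enc a c (Xp l al U v i)) l = b0 := by
    rw [h0]; apply pk_congr; intro i hi
    have := X 0 i hi
    rw [mul_zero, zero_add] at this
    rw [this]
  have p1 : pk (2 * c + 1) (fun i => enc a c (Xp l al U v (l + i))) l = b1 := by
    rw [h1]; apply pk_congr; intro i hi
    have := X 1 i hi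
    rw [mul_one] at this
    rw [this]
  have p2 : pk (2 * c + 1) (fun i => enc a c (Xp l al U v (l + (l + i)))) l = b2 := by
    rw [h2]; apply pk_congr; intro i hi
    have := X 2 i hi
    have e2 : l * 2 + i = l + (l + i) := by ring
    rw [e2] at this
    rw [this]
  have p3 : pk (2 * c + 1) (fun i => enc a c (Xp l al U v (l + (l + (l + i))))) l = b0 := by
    rw [h0]; apply pk_congr; intro i hi
    have := X 3 i hi
    have e2 : l * 3 + i = l + (l + (l + i)) := by ring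
    rw [e2] at this
    rw [this]
    rfl
  rw [p0, p1, p2, p3]
  rfl

/-- the long array of a word -/
def mkA (a c l K L TX0 TY0 TX1 TY1 TX2 TY2 x1 y1 x2 y2 : ℕ) : ℕ :=
  asm4 (Nat.add (Nat.mul 2 c) 1) l (blk a c l K L TX0 TY0 0 0) (blk a c l K L TX1 TY1 x1 y1)
    (blk a c l K L TX2 TY2 x2 y2)

theorem Gm_zero (al : ℤ × ℤ) : Gm al 0 = 0 := by simp [Gm]

theorem mkA_spec (a c l K L TX0 TY0 TX1 TY1 TX2 TY2 x1 y1 x2 y2 : ℕ) (D : ℕ → ℤ × ℤ) (al : ℤ × ℤ)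
    (U : Bool → ℕ → ℤ × ℤ) (v : Bool) (hU : ∀ i, U v i = walk D L i)
    (hac : 3 * 2 ^ a ≤ 2 ^ c) (hK : l ≤ 2 ^ K)
    (hT0 : tbB a TX0 TY0 D) (hT1 : tbB a TX1 TY1 (fun i => Rm 1 (D i)))
    (hT2 : tbB a TX2 TY2 (fun i => Rm 2 (D i)))
    (hx1 : (2 ^ a : ℤ) ∣ (Gm al 1).1 - x1) (hy1 : (2 ^ a : ℤ) ∣ (Gm al 1).2 - y1)
    (hx2 : (2 ^ a : ℤ) ∣ (Gm al 2).1 - x2) (hy2 : (2 ^ a : ℤ) ∣ (Gm al 2).2 - y2) :
    AOK a c l al U v (mkA a c l K L TX0 TY0 TX1 TY1 TX2 TY2 x1 y1 x2 y2) := by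
  apply asm4_spec
  · rw [blk_spec a c l K L TX0 TY0 0 0 D (0, 0) hac hK (by simp) (by simp) hT0]
    apply pk_congr
    intro i _
    rw [Gm_zero, hU]
    simp [Rm, Prod.mk_zero_zero]
  · rw [blk_spec a c l K L TX1 TY1 x1 y1 _ (Gm al 1) hac hK hx1 hy1 hT1]
    apply pk_congr
    intro i _
    rw [← Rm_walk, hU]
  · rw [blk_spec a c l K L TX2 TY2 x2 y2 _ (Gm al 2) hac hK hx2 hy2 hT2]
    apply pk_congr
    intro i _
    rw [← Rm_walk, hU]

theorem walk_mul2 (D : ℕ → ℤ × ℤ) (L n : ℕ) :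
    walk (fun i => (-2 * (D i).1, -2 * (D i).2)) L n = (-2 * (walk D L n).1, -2 * (walk D L n).2) := by
  induction n with
  | zero => simp [walk_zero]
  | succ n ih =>
    rw [walk_succ, walk_succ, ih]
    apply Prod.ext
    · simp only [Prod.fst_add]; ring
    · simp only [Prod.snd_add]; ring

theorem mkB_spec (a c l K L TX TY : ℕ) (D : ℕ → ℤ × ℤ) (U : Bool → ℕ → ℤ × ℤ) (v : Bool)
    (hU : ∀ i, U v i = walk D L i) (hac : 3 * 2 ^ a ≤ 2 ^ c) (hK : l ≤ 2 ^ K)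
    (hT : tbB a TX TY (fun i => (-2 * (D i).1, -2 * (D i).2))) :
    BOK a c l U v (blk a c l K L TX TY 0 0) := by
  unfold BOK
  rw [blk_spec a c l K L TX TY 0 0 _ (0, 0) hac hK (by simp) (by simp) hT]
  apply pk_congr
  intro i _
  rw [walk_mul2, hU]
  have : ((0, 0) : ℤ × ℤ) + (-2 * (walk D L i).1, -2 * (walk D L i).2)
    = (-2 * (walk D L i).1, -2 * (walk D L i).2) := by
    apply Prod.ext <;> simp
  rw [this]

/-- the exact array of a word -/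
def mkE (K L TX TY : ℕ) : ℕ := bld (ef 17 17) 34 (tb TX) (tb TY) K L 0 0

theorem mkE_spec (l K L TX TY : ℕ) (D : ℕ → ℤ × ℤ) (hK : l < 2 ^ K) (hT : tbB 17 TX TY D) :
    ExOK l (fun i => walk D L i) (mkE K L TX TY) := by
  have h := bld_walk 17 17 34 D (0, 0) (tb TX) (tb TY) K L 0 0 (by simp) (by simp)
    (fun i hi => (hT i hi).1) (fun i hi => (hT i hi).2)
  have hlt : ∀ p : ℤ × ℤ, enc 17 17 p < 2 ^ 34 := by
    intro p
    unfold enc
    have h1 := toNat_emod_lt 17 p.1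
    have h2 := toNat_emod_lt 17 p.2
    norm_num at h1 h2 ⊢
    omega
  intro i hi
  have hg := pk_get 34 (fun i => enc 17 17 ((0, 0) + walk D L i)) (2 ^ K) i (by omega)
    (fun j _ => hlt _)
  have hE : mkE K L TX TY = pk 34 (fun i => enc 17 17 ((0, 0) + walk D L i)) (2 ^ K) := h
  rw [← hE] at hg
  have hz : ((0, 0) : ℤ × ℤ) + walk D L i = walk D L i := by
    apply Prod.ext <;> simp
  rw [hz] at hg
  unfold enc at hg
  have h1 := toNat_emod_lt 17 (walk D L i).1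
  have h2 := toNat_emod_lt 17 (walk D L i).2
  have b1 : (0 : ℤ) ≤ (walk D L i).1 % 2 ^ 17 := Int.emod_nonneg _ (by norm_num)
  have b2 : (0 : ℤ) ≤ (walk D L i).2 % 2 ^ 17 := Int.emod_nonneg _ (by norm_num)
  have fxe : fx (mkE K L TX TY) i = ((walk D L i).1 % 2 ^ 17).toNat := by
    change (mkE K L TX TY >>> (34 * i)) % 131072 = _
    rw [Nat.shiftRight_eq_div_pow]
    norm_num at hg h1 h2 ⊢
    omega
  have fye : fy (mkE K L TX TY) i = ((walk D L i).2 % 2 ^ 17).toNat := by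
    change (mkE K L TX TY >>> (34 * i + 17)) % 131072 = _
    rw [Nat.shiftRight_eq_div_pow, pow_add, ← Nat.div_div_eq_div_mul]
    norm_num at hg h1 h2 ⊢
    omega
  rw [fxe, fye, Int.toNat_of_nonneg b1, Int.toNat_of_nonneg b2]
  have hM : (MM : ℤ) = 2 ^ 17 := by norm_num [MM]
  rw [hM]
  exact ⟨Int.dvd_self_sub_emod, Int.dvd_self_sub_emod⟩

theorem walk_bdd (D : ℕ → ℤ × ℤ) (L l : ℕ) (s : ℕ) (hs : s * l ≤ 8000)
    (hD : ∀ i < 4, |(D i).1| ≤ s ∧ |(D i).2| ≤ s) : Bdd l (fun i => walk D L i) := by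
  have h : ∀ n, |(walk D L n).1| ≤ s * n ∧ |(walk D L n).2| ≤ s * n := by
    intro n
    induction n with
    | zero => simp [walk_zero]
    | succ n ih =>
      have h1 := hD _ (dg_lt L n)
      rw [walk_succ, Prod.fst_add, Prod.snd_add]
      push_cast
      constructor
      · calc |(walk D L n).1 + (D (dg L n)).1| ≤ |(walk D L n).1| + |(D (dg L n)).1| := abs_add_le _ _
          _ ≤ s * n + s := add_le_add ih.1 h1.1
          _ = s * (n + 1) := by ring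
      · calc |(walk D L n).2 + (D (dg L n)).2| ≤ |(walk D L n).2| + |(D (dg L n)).2| := abs_add_le _ _
          _ ≤ s * n + s := add_le_add ih.2 h1.2
          _ = s * (n + 1) := by ring
  intro i hi
  have h1 := h i
  have h2 : s * i ≤ s * l := Nat.mul_le_mul_left _ hi
  have h3 : ((s * i : ℕ) : ℤ) ≤ 8000 := by exact_mod_cast h2.trans hs
  push_cast at h3
  exact ⟨h1.1.trans h3, h1.2.trans h3⟩

end Pool.Agent.Helper413_Mak
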