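import Mathlib
import Pool.Agent.Helper413_Mak.Arr

set_option autoImplicit false

/-!
The two words and the final argument.
-/

namespace Pool.Agent.Helper413_Mak

/-- the direction of the coarse walk -/
def bb : ℤ × ℤ := (1, 2)

/-- a block walk refines the coarse walk -/
theorem ref_of (l m : ℕ) (al : ℤ × ℤ) (U : Bool → ℕ → ℤ × ℤ) (z : ℕ → Bool) (W Z : ℕ → ℤ × ℤ)
    (hW0 : W 0 = 0) (hW : ∀ j, W (j + 1) = W j + if z j then Rm j bb else 0)
    (hZ0 : Z 0 = 0) (hZ : ∀ j r, r ≤ l → Z (l * j + r) = Z (l * j) + Rm j (U (z j) r))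
    (hU : ∀ v, U v l = al + if v then (m : ℤ) • bb else 0) : Ref l m al U z W Z := by
  have key : ∀ j, Z (l * j) = Gm al j + (m : ℤ) • W j := by
    intro j
    induction j with
    | zero => rw [mul_zero, hZ0, hW0, Gm_zero]; simp
    | succ j ih =>
      have h1 : l * (j + 1) = l * j + l := by ring
      rw [h1, hZ j l le_rfl, ih, hU, hW, Gm_add, Rm_add]
      have h2 : Gm al 1 = al := by simp [Gm]
      have h3 : Rm j (if z j then (m : ℤ) • bb else 0) = (m : ℤ) • (if z j then Rm j bb else 0) := by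
        by_cases hz : z j = true
        · simp only [hz, if_true]
          rcases mod3_cases j with h | h | h <;> simp [Rm, h, Prod.ext_iff] <;> ring
        · simp only [hz]
          simp [Rm]
      rw [h2, h3, smul_add]
      abel
  intro j r hr
  rw [hZ j r hr, key]

/-- bit of a letter -/
def hbit (L i : ℕ) : Bool := decide (dg L i ≠ 0)

/-- choice -/
def vs (A B : ℕ) (v : Bool) : ℕ := if v then B else A

/-- the sequence of versions -/
def zt (m L0 L1 : ℕ) (n : ℕ) : Bool :=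
  if h : n = 0 ∨ m ≤ 1 then false else hbit (vs L0 L1 (zt m L0 L1 (n / m))) (n % m)
termination_by n
decreasing_by
  push Not at h
  exact Nat.div_lt_self (by omega) h.2

theorem zt_spec (m L0 L1 : ℕ) (hm : 1 < m) (h0 : hbit L0 0 = false) (J r : ℕ) (hr : r < m) :
    zt m L0 L1 (m * J + r) = hbit (vs L0 L1 (zt m L0 L1 J)) r := by
  have hd : (m * J + r) / m = J := by
    rw [Nat.mul_add_div (by omega), Nat.div_eq_of_lt hr, add_zero]
  have hmod : (m * J + r) % m = r := by
    rw [Nat.mul_add_mod, Nat.mod_eq_of_lt hr]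
  by_cases hn : m * J + r = 0
  · have hJ : J = 0 := by
      rcases Nat.eq_zero_or_pos J with h | h
      · exact h
      · have : 0 < m * J := Nat.mul_pos (by omega) h
        omega
    have hr0 : r = 0 := by omega
    subst hJ hr0
    have e : zt m L0 L1 0 = false := by rw [zt]; simp
    rw [mul_zero, add_zero, e]
    exact h0.symm
  · rw [zt, dif_neg (by push Not; exact ⟨hn, by omega⟩), hd, hmod]

/-- coarse walk -/
def Wk (z : ℕ → Bool) (n : ℕ) : ℤ × ℤ := ∑ i ∈ Finset.range n, if z i then Rm i bb else 0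

theorem Wk_succ (z : ℕ → Bool) (n : ℕ) : Wk z (n + 1) = Wk z n + if z n then Rm n bb else 0 := by
  simp [Wk, Finset.sum_range_succ]

/-- steps of the coarse words: digit `0` no step, digit `k + 1` the step `Rm k bb` -/
def tz (c : ℕ) : ℤ × ℤ := if c = 0 then (0, 0) else Rm (c - 1) bb

theorem coarse_ref (m az L0 L1 : ℕ) (al : ℤ × ℤ) (hm : 1 < m) (hm3 : m % 3 = 1)
    (h0 : hbit L0 0 = false)
    (hdg : ∀ v, ∀ r < m, dg (vs L0 L1 v) r = 0 ∨ dg (vs L0 L1 v) r = 1 + r % 3)
    (hend : ∀ v, walk tz (vs L0 L1 v) m = al + if v then ((2 ^ az : ℕ) : ℤ) • bb else 0) :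
    Ref m (2 ^ az) al (fun v i => walk tz (vs L0 L1 v) i) (zt m L0 L1) (Wk (zt m L0 L1))
      (Wk (zt m L0 L1)) := by
  apply ref_of
  · simp [Wk]
  · exact Wk_succ _
  · simp [Wk]
  · intro j r
    induction r with
    | zero => intro _; rw [walk_zero, Rm_zero]; simp [Prod.ext_iff]
    | succ r ih =>
      intro hr
      rw [← add_assoc, Wk_succ, ih (by omega), walk_succ, Rm_add, zt_spec m L0 L1 hm h0 j r (by omega),
        add_assoc]
      congr 2
      rcases hdg (zt m L0 L1 j) r (by omega) with h | h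
      · simp [hbit, h, tz, Rm]
        rfl
      · have e : hbit (vs L0 L1 (zt m L0 L1 j)) r = true := by
          unfold hbit; rw [h]; simp
        rw [e, if_pos rfl, h]
        unfold tz
        rw [if_neg (by omega)]
        have e2 : 1 + r % 3 - 1 = r % 3 := by omega
        rw [e2, Rm_mod, Rm_Rm]
        apply Rm_congr
        have e3 : (m * j) % 3 = j % 3 := by
          rw [Nat.mul_mod, hm3, one_mul, Nat.mod_mod]
        omega
  · exact hend

/-- the coarse walk has no long progressions -/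
theorem coarse_free (m az L0 L1 : ℕ) (al : ℤ × ℤ) (hm : 2 < m)
    (hR : Ref m (2 ^ az) al (fun v i => walk tz (vs L0 L1 v) i) (zt m L0 L1) (Wk (zt m L0 L1))
      (Wk (zt m L0 L1)))
    (hC : Chk az m 3 3 al (fun v i => walk tz (vs L0 L1 v) i)) :
    ∀ q, 1 ≤ q → ∀ j, Wk (zt m L0 L1) j + Wk (zt m L0 L1) (j + 6 * q)
      ≠ Wk (zt m L0 L1) (j + 3 * q) + Wk (zt m L0 L1) (j + 3 * q) := by
  intro q
  induction q using Nat.strong_induction_on with
  | _ q ih =>
    intro hq j h
    have e : 6 * q = 2 * (3 * q) := by ring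
    rw [e] at h
    obtain ⟨j', q', hq', h', hlt⟩ := descent az m 3 3 al _ (zt m L0 L1) (Wk (zt m L0 L1))
      (Wk (zt m L0 L1)) (by omega) (by norm_num) (Dvd.intro _ rfl) hR
      (fun v => walk_zero _ _) hC j (3 * q) (by omega) (Dvd.intro _ rfl) h
    have hqq : q' < q := by
      by_contra hc
      have h1 : 3 * q * m ≤ 3 * q' * m := Nat.mul_le_mul_right _ (by omega)
      have h2 : 3 * q * 3 ≤ 3 * q * m := Nat.mul_le_mul_left _ (by omega)
      have h3 : 3 * m ≤ 3 * q * m := Nat.mul_le_mul_right _ (by omega)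
      have h4 : 3 * q * m = q * (3 * m) := by ring
      nlinarith
    exact ih q' hqq hq' j' h'

/-- steps of the ternary letters -/
def tt (c : ℕ) : ℤ × ℤ :=
  if c = 0 then (1, 0) else if c = 1 then (0, 1) else if c = 2 then (-1, -1) else (0, 0)

/-- letter -/
def lett (l A0 A1 : ℕ) (z : ℕ → Bool) (n : ℕ) : Fin 3 :=
  ⟨(dg (vs A0 A1 (z (n / l))) (n % l) + n / l) % 3, Nat.mod_lt _ (by norm_num)⟩

/-- fine walk of a ternary word -/
def Zk (w : ℕ → Fin 3) (n : ℕ) : ℤ × ℤ := ∑ i ∈ Finset.range n, tt (w i).val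

theorem Zk_succ (w : ℕ → Fin 3) (n : ℕ) : Zk w (n + 1) = Zk w n + tt (w n).val := by
  simp [Zk, Finset.sum_range_succ]

theorem tt_rot (c j : ℕ) (hc : c < 3) : tt ((c + j) % 3) = Rm j (tt c) := by
  rcases mod3_cases j with h | h | h <;> interval_cases c <;> simp [tt, Rm, h, Nat.add_mod]

theorem fine_ref (l a A0 A1 : ℕ) (al : ℤ × ℤ) (z : ℕ → Bool) (hl : 0 < l)
    (hdg : ∀ v, ∀ r < l, dg (vs A0 A1 v) r < 3)
    (hend : ∀ v, walk tt (vs A0 A1 v) l = al + if v then ((2 ^ a : ℕ) : ℤ) • bb else 0) :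
    Ref l (2 ^ a) al (fun v i => walk tt (vs A0 A1 v) i) z (Wk z) (Zk (lett l A0 A1 z)) := by
  apply ref_of
  · simp [Wk]
  · exact Wk_succ _
  · simp [Zk]
  · intro j r
    induction r with
    | zero => intro _; rw [walk_zero, Rm_zero]; simp [Prod.ext_iff]
    | succ r ih =>
      intro hr
      rw [← add_assoc, Zk_succ, ih (by omega), walk_succ, Rm_add, add_assoc]
      congr 2
      have hd : (l * j + r) / l = j := by
        rw [Nat.mul_add_div hl, Nat.div_eq_of_lt (by omega), add_zero]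
      have hmod : (l * j + r) % l = r := by
        rw [Nat.mul_add_mod, Nat.mod_eq_of_lt (by omega)]
      simp only [lett, hd, hmod]
      exact tt_rot _ _ (hdg (z j) r (by omega))
  · exact hend

/-- number of occurrences -/
def cnt (w : ℕ → Fin 3) (a : Fin 3) (i n : ℕ) : ℕ :=
  ((Finset.range n).filter (fun k => w (i + k) = a)).card

theorem cnt_succ (w : ℕ → Fin 3) (a : Fin 3) (i n : ℕ) :
    cnt w a i (n + 1) = cnt w a i n + if w (i + n) = a then 1 else 0 := by
  unfold cnt
  rw [Finset.range_add_one, Finset.filter_insert]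
  by_cases h : w (i + n) = a
  · rw [if_pos h, Finset.card_insert_of_notMem (by simp), if_pos h]
  · rw [if_neg h, if_neg h, add_zero]

theorem Zk_cnt (w : ℕ → Fin 3) (i n : ℕ) :
    Zk w (i + n) = Zk w i + ((cnt w 0 i n : ℤ) - cnt w 2 i n, (cnt w 1 i n : ℤ) - cnt w 2 i n) := by
  induction n with
  | zero => simp [cnt, Prod.ext_iff]
  | succ n ih =>
    rw [← add_assoc, Zk_succ, ih, cnt_succ, cnt_succ, cnt_succ]
    generalize w (i + n) = b
    fin_cases b
    · simp [tt, Prod.ext_iff]; ring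
    · simp [tt, Prod.ext_iff]; ring
    · simp [tt, Prod.ext_iff]; constructor <;> ring

theorem main_of (l a P m az L0 L1 A0 A1 : ℕ) (al alz : ℤ × ℤ) (hl : 0 < l) (hP : 1 ≤ P) (hm : 2 < m)
    (hm3 : m % 3 = 1) (h0 : hbit L0 0 = false)
    (hdz : ∀ v, ∀ r < m, dg (vs L0 L1 v) r = 0 ∨ dg (vs L0 L1 v) r = 1 + r % 3)
    (hez : ∀ v, walk tz (vs L0 L1 v) m = alz + if v then ((2 ^ az : ℕ) : ℤ) • bb else 0)
    (hCz : Chk az m 3 3 alz (fun v i => walk tz (vs L0 L1 v) i))
    (hdt : ∀ v, ∀ r < l, dg (vs A0 A1 v) r < 3)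
    (het : ∀ v, walk tt (vs A0 A1 v) l = al + if v then ((2 ^ a : ℕ) : ℤ) • bb else 0)
    (hCt : Chk a l P 1 al (fun v i => walk tt (vs A0 A1 v) i)) :
    ∃ w : ℕ → Fin 3, ∀ i n : ℕ, P ≤ n →
      ¬ (∀ b : Fin 3,
          ((Finset.range n).filter (fun k => w (i + k) = b)).card =
          ((Finset.range n).filter (fun k => w (i + n + k) = b)).card) := by
  refine ⟨lett l A0 A1 (zt m L0 L1), ?_⟩
  intro i n hn h
  have hRz := coarse_ref m az L0 L1 alz (by omega) hm3 h0 hdz hez
  have hRt := fine_ref l a A0 A1 al (zt m L0 L1) hl hdt het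
  have e1 := Zk_cnt (lett l A0 A1 (zt m L0 L1)) i n
  have e2 := Zk_cnt (lett l A0 A1 (zt m L0 L1)) (i + n) n
  have c0 : cnt (lett l A0 A1 (zt m L0 L1)) 0 i n = cnt (lett l A0 A1 (zt m L0 L1)) 0 (i + n) n := h 0
  have c1 : cnt (lett l A0 A1 (zt m L0 L1)) 1 i n = cnt (lett l A0 A1 (zt m L0 L1)) 1 (i + n) n := h 1
  have c2 : cnt (lett l A0 A1 (zt m L0 L1)) 2 i n = cnt (lett l A0 A1 (zt m L0 L1)) 2 (i + n) n := h 2
  rw [← c0, ← c1, ← c2] at e2
  have e3 : i + 2 * n = i + n + n := by ring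
  obtain ⟨j, q, hq, hW, _⟩ := descent a l P 1 al _ (zt m L0 L1) (Wk (zt m L0 L1))
    (Zk (lett l A0 A1 (zt m L0 L1))) hl hP (one_dvd _) hRt (fun v => walk_zero _ _) hCt i n hn
    (one_dvd _) (by rw [e3, e2, e1]; abel)
  exact coarse_free m az L0 L1 alz hm hRz hCz q hq j hW

/-- bounded conjunction -/
def allF (f : ℕ → Bool) (n : ℕ) : ℕ → Bool :=
  Nat.rec (fun _ => true) (fun _ ih k => and (f k) (ih (Nat.add k 1))) n

theorem allF_spec (f : ℕ → Bool) (n : ℕ) : ∀ k, allF f n k = true → ∀ i < n, f (k + i) = true := by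
  induction n with
  | zero => intro k _ i hi; omega
  | succ n ih =>
    intro k h i hi
    have h' : (f k && allF f n (k + 1)) = true := h
    rw [Bool.and_eq_true] at h'
    rcases Nat.eq_zero_or_pos i with h0 | h0
    · rw [h0]; exact h'.1
    · have := ih (k + 1) h'.2 (i - 1) (by omega)
      have e : k + 1 + (i - 1) = k + i := by omega
      rw [e] at this
      exact this

end Pool.Agent.Helper413_Mak
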