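import Mathlib
import Pool.Agent.Helper413_Mak.Glue

set_option autoImplicit false

/-!
The final argument with a control of the abelian squares of period two: they are constant.
-/

namespace Pool.Agent.Helper413_Mak

/-- four letters `a b c d`: if `{a, b} = {c, d}` as multisets then all are equal -/
def okq (a b c d : ℕ) : Bool :=
  or (Bool.not (or (and (Nat.beq a c) (Nat.beq b d)) (and (Nat.beq a d) (Nat.beq b c))))
    (and (Nat.beq a b) (and (Nat.beq b c) (Nat.beq c d)))

/-- letter `p` of the block `A` followed by the rotated block `B` -/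
def wl (l A B p : ℕ) : ℕ :=
  if p < l then dg A p % 3 else (dg B (p - l) + 1) % 3

/-- window check -/
def w4 (l A B r : ℕ) : Bool :=
  okq (wl l A B r) (wl l A B (r + 1)) (wl l A B (r + 2)) (wl l A B (r + 3))

theorem lett_wl (l A0 A1 : ℕ) (z : ℕ → Bool) (hl : 3 < l) (J p : ℕ) (hp : p < 2 * l) :
    (lett l A0 A1 z (l * J + p)).val
      = (wl l (vs A0 A1 (z J)) (vs A0 A1 (z (J + 1))) p + J) % 3 := by
  unfold wl lett
  by_cases h : p < l
  · have hd : (l * J + p) / l = J := by
      rw [Nat.mul_add_div (by omega), Nat.div_eq_of_lt h, add_zero]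
    have hmod : (l * J + p) % l = p := by
      rw [Nat.mul_add_mod, Nat.mod_eq_of_lt h]
    simp only [hd, hmod, if_pos h]
    omega
  · have e : l * J + p = l * (J + 1) + (p - l) := by
      have : l * (J + 1) = l * J + l := by ring
      omega
    have hd : (l * J + p) / l = J + 1 := by
      rw [e, Nat.mul_add_div (by omega), Nat.div_eq_of_lt (by omega), add_zero]
    have hmod : (l * J + p) % l = p - l := by
      rw [e, Nat.mul_add_mod, Nat.mod_eq_of_lt (by omega)]
    simp only [hd, hmod, if_neg h]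
    omega

theorem fin_pair (a b c d : Fin 3)
    (h : ∀ x : Fin 3, ((if a = x then 1 else 0) + (if b = x then 1 else 0) : ℕ)
      = (if c = x then 1 else 0) + (if d = x then 1 else 0)) :
    (a = c ∧ b = d) ∨ (a = d ∧ b = c) := by
  revert a b c d
  decide

theorem main_of4 (l a m az L0 L1 A0 A1 : ℕ) (al alz : ℤ × ℤ) (hl : 3 < l) (hm : 2 < m)
    (hm3 : m % 3 = 1) (h0 : hbit L0 0 = false)
    (hdz : ∀ v, ∀ r < m, dg (vs L0 L1 v) r = 0 ∨ dg (vs L0 L1 v) r = 1 + r % 3)
    (hez : ∀ v, walk tz (vs L0 L1 v) m = alz + if v then ((2 ^ az : ℕ) : ℤ) • bb else 0)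
    (hCz : Chk az m 3 3 alz (fun v i => walk tz (vs L0 L1 v) i))
    (hdt : ∀ v, ∀ r < l, dg (vs A0 A1 v) r < 3)
    (het : ∀ v, walk tt (vs A0 A1 v) l = al + if v then ((2 ^ a : ℕ) : ℤ) • bb else 0)
    (hCt : Chk a l 3 1 al (fun v i => walk tt (vs A0 A1 v) i))
    (h4 : ∀ v v', ∀ r < l, w4 l (vs A0 A1 v) (vs A0 A1 v') r = true) :
    ∃ w : ℕ → Fin 3, ∀ i n : ℕ, 2 ≤ n →
      (∀ b : Fin 3,
          ((Finset.range n).filter (fun k => w (i + k) = b)).card =
          ((Finset.range n).filter (fun k => w (i + n + k) = b)).card) →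
      n = 2 ∧ w (i + 1) = w i ∧ w (i + 2) = w i ∧ w (i + 3) = w i := by
  refine ⟨lett l A0 A1 (zt m L0 L1), ?_⟩
  intro i n hn h
  have hRz := coarse_ref m az L0 L1 alz (by omega) hm3 h0 hdz hez
  have hRt := fine_ref l a A0 A1 al (zt m L0 L1) (by omega) hdt het
  have e1 := Zk_cnt (lett l A0 A1 (zt m L0 L1)) i n
  have e2 := Zk_cnt (lett l A0 A1 (zt m L0 L1)) (i + n) n
  have c0 : cnt (lett l A0 A1 (zt m L0 L1)) 0 i n = cnt (lett l A0 A1 (zt m L0 L1)) 0 (i + n) n := h 0
  have c1 : cnt (lett l A0 A1 (zt m L0 L1)) 1 i n = cnt (lett l A0 A1 (zt m L0 L1)) 1 (i + n) n := h 1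
  have c2 : cnt (lett l A0 A1 (zt m L0 L1)) 2 i n = cnt (lett l A0 A1 (zt m L0 L1)) 2 (i + n) n := h 2
  by_cases hn3 : 3 ≤ n
  · exfalso
    rw [← c0, ← c1, ← c2] at e2
    have e3 : i + 2 * n = i + n + n := by ring
    obtain ⟨j, q, hq, hW, _⟩ := descent a l 3 1 al _ (zt m L0 L1) (Wk (zt m L0 L1))
      (Zk (lett l A0 A1 (zt m L0 L1))) (by omega) (by norm_num) (one_dvd _) hRt
      (fun v => walk_zero _ _) hCt i n hn3
      (one_dvd _) (by rw [e3, e2, e1]; abel)
    exact coarse_free m az L0 L1 alz hm hRz hCz q hq j hW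
  · have hn2 : n = 2 := by omega
    subst hn2
    refine ⟨rfl, ?_⟩
    set w := lett l A0 A1 (zt m L0 L1) with hw
    have hc : ∀ x : Fin 3, cnt w x i 2 = cnt w x (i + 2) 2 := fun x => h x
    have hz : ∀ x j, cnt w x j 0 = 0 := by intro x j; simp [cnt]
    have hp := fin_pair (w i) (w (i + 1)) (w (i + 2)) (w (i + 3)) (by
      intro x
      have h1 := hc x
      rw [cnt_succ, cnt_succ, hz, cnt_succ, cnt_succ, hz] at h1
      simpa using h1)
    -- the window
    have hd := Nat.div_add_mod i l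
    have hr : i % l < l := Nat.mod_lt _ (by omega)
    have hk := h4 (zt m L0 L1 (i / l)) (zt m L0 L1 (i / l + 1)) (i % l) hr
    have v0 := lett_wl l A0 A1 (zt m L0 L1) hl (i / l) (i % l) (by omega)
    have v1 := lett_wl l A0 A1 (zt m L0 L1) hl (i / l) (i % l + 1) (by omega)
    have v2 := lett_wl l A0 A1 (zt m L0 L1) hl (i / l) (i % l + 2) (by omega)
    have v3 := lett_wl l A0 A1 (zt m L0 L1) hl (i / l) (i % l + 3) (by omega)
    have b : ∀ p, wl l (vs A0 A1 (zt m L0 L1 (i / l))) (vs A0 A1 (zt m L0 L1 (i / l + 1))) p < 3 := by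
      intro p
      unfold wl
      split_ifs <;> exact Nat.mod_lt _ (by norm_num)
    have b0 := b (i % l)
    have b1 := b (i % l + 1)
    have b2 := b (i % l + 2)
    have b3 := b (i % l + 3)
    rw [← add_assoc, hd, ← hw] at v1 v2 v3
    rw [hd, ← hw] at v0
    unfold w4 at hk
    generalize wl l (vs A0 A1 (zt m L0 L1 (i / l))) (vs A0 A1 (zt m L0 L1 (i / l + 1))) (i % l) = x0 at *
    generalize wl l (vs A0 A1 (zt m L0 L1 (i / l))) (vs A0 A1 (zt m L0 L1 (i / l + 1))) (i % l + 1) = x1 at *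
    generalize wl l (vs A0 A1 (zt m L0 L1 (i / l))) (vs A0 A1 (zt m L0 L1 (i / l + 1))) (i % l + 2) = x2 at *
    generalize wl l (vs A0 A1 (zt m L0 L1 (i / l))) (vs A0 A1 (zt m L0 L1 (i / l + 1))) (i % l + 3) = x3 at *
    have hok : ((x0 = x2 ∧ x1 = x3) ∨ (x0 = x3 ∧ x1 = x2)) → (x0 = x1 ∧ x1 = x2 ∧ x2 = x3) := by
      intro hh
      interval_cases x0 <;> interval_cases x1 <;> interval_cases x2 <;> interval_cases x3 <;>
        first
          | (exfalso; revert hk; decide)
          | (revert hh; decide)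
    have q : (x0 = x2 ∧ x1 = x3) ∨ (x0 = x3 ∧ x1 = x2) := by
      rcases hp with ⟨g1, g2⟩ | ⟨g1, g2⟩
      · left
        have g1' := congrArg Fin.val g1
        have g2' := congrArg Fin.val g2
        omega
      · right
        have g1' := congrArg Fin.val g1
        have g2' := congrArg Fin.val g2
        omega
    obtain ⟨q1, q2, q3⟩ := hok q
    refine ⟨?_, ?_, ?_⟩
    · apply Fin.ext; omega
    · apply Fin.ext; omega
    · apply Fin.ext; omega

end Pool.Agent.Helper413_Mak
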