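import Mathlib
import Pool.Agent.Helper413_Mak.P3Arr

set_option autoImplicit false

/-!
Scan of a range of lags.
-/

namespace Pool.Agent.Helper413_Mak.P3

open Pool.Agent.Helper413_Mak

set_option maxRecDepth 100000 in
theorem rows0 : allF rw' 525 0 = true := by
  decide +kernel

end Pool.Agent.Helper413_Mak.P3
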