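import Mathlib
import Pool.Agent.Helper413_Mak.P3R0
import Pool.Agent.Helper413_Mak.P3R1
import Pool.Agent.Helper413_Mak.P3R2
import Pool.Agent.Helper413_Mak.P3R3

set_option autoImplicit false

/-!
All lags.
-/

namespace Pool.Agent.Helper413_Mak.P3

open Pool.Agent.Helper413_Mak

theorem chk : Chk 7 1401 3 1 al U := by
  apply chk_of_half _ _ _ _ _ _ (by norm_num)
  intro d hd hg
  obtain ⟨e, rfl⟩ := hg
  have h : rw' e = true := by
    have hcs : (0 ≤ e ∧ e < 525) ∨ (525 ≤ e ∧ e < 1051) ∨ (1051 ≤ e ∧ e < 1576) ∨ (1576 ≤ e ∧ e < 2102) := by omega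
    rcases hcs with hc | hc | hc | hc
    · have h := allF_spec _ _ _ rows0 (e - 0) (by omega)
      have e1 : 0 + (e - 0) = e := by omega
      rw [e1] at h
      exact h
    · have h := allF_spec _ _ _ rows1 (e - 525) (by omega)
      have e1 : 525 + (e - 525) = e := by omega
      rw [e1] at h
      exact h
    · have h := allF_spec _ _ _ rows2 (e - 1051) (by omega)
      have e1 : 1051 + (e - 1051) = e := by omega
      rw [e1] at h
      exact h
    · have h := allF_spec _ _ _ rows3 (e - 1576) (by omega)
      have e1 : 1576 + (e - 1576) = e := by omega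
      rw [e1] at h
      exact h
  exact rw_spec e (by omega) h

end Pool.Agent.Helper413_Mak.P3
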