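import Mathlib
import Pool.Agent.Helper413_Mak.Q4Data

set_option autoImplicit false

/-!
The packed arrays are right.
-/

namespace Pool.Agent.Helper413_Mak.Q4

open Pool.Agent.Helper413_Mak

/-- origin displacement -/
def al : ℤ × ℤ := (-79, -337)

/-- walks of the two words -/
def U (v : Bool) (i : ℕ) : ℤ × ℤ := walk tt (vs L0 L1 v) i

set_option maxRecDepth 100000 in
theorem eqA0 : Nat.beq A0 (mkA 8 10 1801 11 L0 280375465082881 280375466131456 1099779014656 267386881 1048831 1099511628031 177 175 2 177) = true := by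
  decide +kernel

set_option maxRecDepth 100000 in
theorem eqB0 : Nat.beq B0 (blk 8 10 1801 11 L0 2199023255806 2199289593856 0 0) = true := by
  decide +kernel

set_option maxRecDepth 100000 in
theorem eqE0 : Nat.beq E0 (mkE 11 L0 144114088564228097 144114088565276672) = true := by
  decide +kernel

set_option maxRecDepth 100000 in
theorem eqA1 : Nat.beq A1 (mkA 8 10 1801 11 L1 280375465082881 280375466131456 1099779014656 267386881 1048831 1099511628031 177 175 2 177) = true := by
  decide +kernel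

set_option maxRecDepth 100000 in
theorem eqB1 : Nat.beq B1 (blk 8 10 1801 11 L1 2199023255806 2199289593856 0 0) = true := by
  decide +kernel

set_option maxRecDepth 100000 in
theorem eqE1 : Nat.beq E1 (mkE 11 L1 144114088564228097 144114088565276672) = true := by
  decide +kernel

theorem tb0 : tbB 8 280375465082881 280375466131456 tt := by unfold tbB; decide
theorem tb1 : tbB 8 1099779014656 267386881 (fun i => Rm 1 (tt i)) := by unfold tbB; decide
theorem tb2 : tbB 8 1048831 1099511628031 (fun i => Rm 2 (tt i)) := by unfold tbB; decide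
theorem tbN : tbB 8 2199023255806 2199289593856 (fun i => (-2 * (tt i).1, -2 * (tt i).2)) := by unfold tbB; decide
theorem tbE : tbB 17 144114088564228097 144114088565276672 tt := by unfold tbB; decide

theorem aok0 : AOK 8 10 1801 al U false A0 := by
  rw [Nat.eq_of_beq_eq_true eqA0]
  exact mkA_spec 8 10 1801 11 L0 _ _ _ _ _ _ _ _ _ _ tt al U false (fun _ => rfl) (by norm_num) (by norm_num)
    tb0 tb1 tb2 (by decide) (by decide) (by decide) (by decide)

theorem bok0 : BOK 8 10 1801 U false B0 := by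
  rw [Nat.eq_of_beq_eq_true eqB0]
  exact mkB_spec 8 10 1801 11 L0 _ _ tt U false (fun _ => rfl) (by norm_num) (by norm_num) tbN

theorem eok0 : ExOK 1801 (U false) E0 := by
  rw [Nat.eq_of_beq_eq_true eqE0]
  exact mkE_spec 1801 11 L0 _ _ tt (by norm_num) tbE

theorem aok1 : AOK 8 10 1801 al U true A1 := by
  rw [Nat.eq_of_beq_eq_true eqA1]
  exact mkA_spec 8 10 1801 11 L1 _ _ _ _ _ _ _ _ _ _ tt al U true (fun _ => rfl) (by norm_num) (by norm_num)
    tb0 tb1 tb2 (by decide) (by decide) (by decide) (by decide)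

theorem bok1 : BOK 8 10 1801 U true B1 := by
  rw [Nat.eq_of_beq_eq_true eqB1]
  exact mkB_spec 8 10 1801 11 L1 _ _ tt U true (fun _ => rfl) (by norm_num) (by norm_num) tbN

theorem eok1 : ExOK 1801 (U true) E1 := by
  rw [Nat.eq_of_beq_eq_true eqE1]
  exact mkE_spec 1801 11 L1 _ _ tt (by norm_num) tbE

theorem bdd : ∀ v, Bdd 1801 (U v) := by
  intro v
  exact walk_bdd tt _ 1801 1 (by norm_num) (by decide)

/-- letters are small -/
def dgB (L : ℕ) : Bool := allF (fun i => Nat.ble (Nat.mod (Nat.div L (Nat.pow 4 i)) 4) 2) 1801 0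

theorem dg0 : dgB L0 = true := by decide +kernel
theorem dg1 : dgB L1 = true := by decide +kernel

theorem dgs : ∀ v, ∀ r < 1801, dg (vs L0 L1 v) r < 3 := by
  intro v r hr
  cases v
  · have h := allF_spec _ _ _ dg0 r hr
    rw [zero_add] at h
    have h' : dg L0 r ≤ 2 := Nat.le_of_ble_eq_true h
    change dg L0 r < 3
    omega
  · have h := allF_spec _ _ _ dg1 r hr
    rw [zero_add] at h
    have h' : dg L1 r ≤ 2 := Nat.le_of_ble_eq_true h
    change dg L1 r < 3
    omega

theorem fE0 : and (Nat.beq (fx E0 1801) 130993) (Nat.beq (fy E0 1801) 130735) = true := by decide +kernel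
theorem fE1 : and (Nat.beq (fx E1 1801) 177) (Nat.beq (fy E1 1801) 175) = true := by decide +kernel

theorem ends : ∀ v, walk tt (vs L0 L1 v) 1801 = al + if v then ((2 ^ 8 : ℕ) : ℤ) • bb else 0 := by
  intro v
  have h1 := (bdd v) 1801 le_rfl
  rw [abs_le, abs_le] at h1
  cases v
  · have h2 := eok0 1801 le_rfl
    have h3 := fE0
    rw [Bool.and_eq_true] at h3
    rw [Nat.eq_of_beq_eq_true h3.1, Nat.eq_of_beq_eq_true h3.2] at h2
    change U false 1801 = _
    obtain ⟨⟨x, hx⟩, ⟨y, hy⟩⟩ := h2
    simp only [MM] at hx hy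
    push_cast at hx hy
    apply Prod.ext
    · simp [al]; omega
    · simp [al]; omega
  · have h2 := eok1 1801 le_rfl
    have h3 := fE1
    rw [Bool.and_eq_true] at h3
    rw [Nat.eq_of_beq_eq_true h3.1, Nat.eq_of_beq_eq_true h3.2] at h2
    change U true 1801 = _
    obtain ⟨⟨x, hx⟩, ⟨y, hy⟩⟩ := h2
    simp only [MM] at hx hy
    push_cast at hx hy
    apply Prod.ext
    · simp [al, bb]; omega
    · simp [al, bb]; omega

/-- one lag -/
def rw' (e : ℕ) : Bool := row 8 10 1801 3 A0 A1 B0 B1 E0 E1 (Nat.mul 1 e)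

theorem rw_spec (e : ℕ) (he : 1 * e ≤ 3 * 1801) (h : rw' e = true) :
    ∀ v0 v1 v2 : Bool, ∀ r < 1801, Hit 8 1801 al U v0 v1 v2 (1 * e) r →
      Harm 1801 3 U v0 v1 v2 ((r + (3 * 1801 - 1 * e)) / 1801 % 3) ((r + (3 * 1801 - 1 * e)) % 1801) r
        ((r + 1 * e) / 1801 % 3) ((r + 1 * e) % 1801) :=
  row_spec 8 10 1801 3 (by norm_num) al U A0 A1 B0 B1 E0 E1 (1 * e) he aok0 aok1 bok0 bok1 eok0 eok1 bdd h

end Pool.Agent.Helper413_Mak.Q4
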