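import Mathlib
import Pool.Agent.Helper413_Mak.Q4R0
import Pool.Agent.Helper413_Mak.Q4R1
import Pool.Agent.Helper413_Mak.Q4R2
import Pool.Agent.Helper413_Mak.Q4R3
import Pool.Agent.Helper413_Mak.Q4R4
import Pool.Agent.Helper413_Mak.Q4R5
import Pool.Agent.Helper413_Mak.Q4R6
import Pool.Agent.Helper413_Mak.Q4R7

set_option autoImplicit false

/-!
All lags.
-/

namespace Pool.Agent.Helper413_Mak.Q4

open Pool.Agent.Helper413_Mak

theorem chk : Chk 8 1801 3 1 al U := by
  apply chk_of_half _ _ _ _ _ _ (by norm_num)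
  intro d hd hg
  obtain ⟨e, rfl⟩ := hg
  have h : rw' e = true := by
    have hcs : (0 ≤ e ∧ e < 337) ∨ (337 ≤ e ∧ e < 675) ∨ (675 ≤ e ∧ e < 1013) ∨ (1013 ≤ e ∧ e < 1351) ∨ (1351 ≤ e ∧ e < 1688) ∨ (1688 ≤ e ∧ e < 2026) ∨ (2026 ≤ e ∧ e < 2364) ∨ (2364 ≤ e ∧ e < 2702) := by omega
    rcases hcs with hc | hc | hc | hc | hc | hc | hc | hc
    · have h := allF_spec _ _ _ rows0 (e - 0) (by omega)
      have e1 : 0 + (e - 0) = e := by omega
      rw [e1] at h
      exact h
    · have h := allF_spec _ _ _ rows1 (e - 337) (by omega)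
      have e1 : 337 + (e - 337) = e := by omega
      rw [e1] at h
      exact h
    · have h := allF_spec _ _ _ rows2 (e - 675) (by omega)
      have e1 : 675 + (e - 675) = e := by omega
      rw [e1] at h
      exact h
    · have h := allF_spec _ _ _ rows3 (e - 1013) (by omega)
      have e1 : 1013 + (e - 1013) = e := by omega
      rw [e1] at h
      exact h
    · have h := allF_spec _ _ _ rows4 (e - 1351) (by omega)
      have e1 : 1351 + (e - 1351) = e := by omega
      rw [e1] at h
      exact h
    · have h := allF_spec _ _ _ rows5 (e - 1688) (by omega)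
      have e1 : 1688 + (e - 1688) = e := by omega
      rw [e1] at h
      exact h
    · have h := allF_spec _ _ _ rows6 (e - 2026) (by omega)
      have e1 : 2026 + (e - 2026) = e := by omega
      rw [e1] at h
      exact h
    · have h := allF_spec _ _ _ rows7 (e - 2364) (by omega)
      have e1 : 2364 + (e - 2364) = e := by omega
      rw [e1] at h
      exact h
  exact rw_spec e (by omega) h

end Pool.Agent.Helper413_Mak.Q4
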