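import Mathlib
import Pool.Agent.Helper413_Mak.Q4Data
import Pool.Agent.Helper413_Mak.Glue4

set_option autoImplicit false

/-!
The windows of four letters.
-/

namespace Pool.Agent.Helper413_Mak.Q4

open Pool.Agent.Helper413_Mak

theorem w00 : allF (fun r => w4 1801 L0 L0 r) 1801 0 = true := by decide +kernel
theorem w01 : allF (fun r => w4 1801 L0 L1 r) 1801 0 = true := by decide +kernel
theorem w10 : allF (fun r => w4 1801 L1 L0 r) 1801 0 = true := by decide +kernel
theorem w11 : allF (fun r => w4 1801 L1 L1 r) 1801 0 = true := by decide +kernel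

theorem win : ∀ v v', ∀ r < 1801, w4 1801 (vs L0 L1 v) (vs L0 L1 v') r = true := by
  intro v v' r hr
  have e : 0 + r = r := by omega
  cases v <;> cases v'
  · have h := allF_spec _ _ _ w00 r hr
    rw [e] at h; exact h
  · have h := allF_spec _ _ _ w01 r hr
    rw [e] at h; exact h
  · have h := allF_spec _ _ _ w10 r hr
    rw [e] at h; exact h
  · have h := allF_spec _ _ _ w11 r hr
    rw [e] at h; exact h

end Pool.Agent.Helper413_Mak.Q4
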