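import Mathlib
import Pool.Agent.Helper413_Mak.ZMData

set_option autoImplicit false

/-!
The packed arrays are right.
-/

namespace Pool.Agent.Helper413_Mak.ZM

open Pool.Agent.Helper413_Mak

/-- origin displacement -/
def al : ℤ × ℤ := (-64, -89)

/-- walks of the two words -/
def U (v : Bool) (i : ℕ) : ℤ × ℤ := walk tz (vs L0 L1 v) i

set_option maxRecDepth 100000 in
theorem eqA0 : Nat.beq A0 (mkA 7 9 1201 11 L0 1153060043072995328 146421170723048390656 1152922604250595328 2305982647323590656 145268110679975395328 146421033284225990656 64 39 25 64) = true := by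
  decide +kernel

set_option maxRecDepth 100000 in
theorem eqB0 : Nat.beq B0 (blk 7 9 1201 11 L0 145268113978641350656 2305845208366972928 0 0) = true := by
  decide +kernel

set_option maxRecDepth 100000 in
theorem eqE0 : Nat.beq E0 (mkE 11 L0 1297034493660495872 151114718644412606316544) = true := by
  decide +kernel

set_option maxRecDepth 100000 in
theorem eqA1 : Nat.beq A1 (mkA 7 9 1201 11 L1 1153060043072995328 146421170723048390656 1152922604250595328 2305982647323590656 145268110679975395328 146421033284225990656 64 39 25 64) = true := by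
  decide +kernel

set_option maxRecDepth 100000 in
theorem eqB1 : Nat.beq B1 (blk 7 9 1201 11 L1 145268113978641350656 2305845208366972928 0 0) = true := by
  decide +kernel

set_option maxRecDepth 100000 in
theorem eqE1 : Nat.beq E1 (mkE 11 L1 1297034493660495872 151114718644412606316544) = true := by
  decide +kernel

theorem tb0 : tbB 7 1153060043072995328 146421170723048390656 tz := by unfold tbB; decide
theorem tb1 : tbB 7 1152922604250595328 2305982647323590656 (fun i => Rm 1 (tz i)) := by unfold tbB; decide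
theorem tb2 : tbB 7 145268110679975395328 146421033284225990656 (fun i => Rm 2 (tz i)) := by unfold tbB; decide
theorem tbN : tbB 7 145268113978641350656 2305845208366972928 (fun i => (-2 * (tz i).1, -2 * (tz i).2)) := by unfold tbB; decide
theorem tbE : tbB 17 1297034493660495872 151114718644412606316544 tz := by unfold tbB; decide

theorem aok0 : AOK 7 9 1201 al U false A0 := by
  rw [Nat.eq_of_beq_eq_true eqA0]
  exact mkA_spec 7 9 1201 11 L0 _ _ _ _ _ _ _ _ _ _ tz al U false (fun _ => rfl) (by norm_num) (by norm_num)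
    tb0 tb1 tb2 (by decide) (by decide) (by decide) (by decide)

theorem bok0 : BOK 7 9 1201 U false B0 := by
  rw [Nat.eq_of_beq_eq_true eqB0]
  exact mkB_spec 7 9 1201 11 L0 _ _ tz U false (fun _ => rfl) (by norm_num) (by norm_num) tbN

theorem eok0 : ExOK 1201 (U false) E0 := by
  rw [Nat.eq_of_beq_eq_true eqE0]
  exact mkE_spec 1201 11 L0 _ _ tz (by norm_num) tbE

theorem aok1 : AOK 7 9 1201 al U true A1 := by
  rw [Nat.eq_of_beq_eq_true eqA1]
  exact mkA_spec 7 9 1201 11 L1 _ _ _ _ _ _ _ _ _ _ tz al U true (fun _ => rfl) (by norm_num) (by norm_num)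
    tb0 tb1 tb2 (by decide) (by decide) (by decide) (by decide)

theorem bok1 : BOK 7 9 1201 U true B1 := by
  rw [Nat.eq_of_beq_eq_true eqB1]
  exact mkB_spec 7 9 1201 11 L1 _ _ tz U true (fun _ => rfl) (by norm_num) (by norm_num) tbN

theorem eok1 : ExOK 1201 (U true) E1 := by
  rw [Nat.eq_of_beq_eq_true eqE1]
  exact mkE_spec 1201 11 L1 _ _ tz (by norm_num) tbE

theorem bdd : ∀ v, Bdd 1201 (U v) := by
  intro v
  exact walk_bdd tz _ 1201 2 (by norm_num) (by decide)

/-- letters have the right class -/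
def dgB (L : ℕ) : Bool := allF (fun i => or (Nat.beq (Nat.mod (Nat.div L (Nat.pow 4 i)) 4) 0)
  (Nat.beq (Nat.mod (Nat.div L (Nat.pow 4 i)) 4) (Nat.add 1 (Nat.mod i 3)))) 1201 0

theorem dg0 : dgB L0 = true := by decide +kernel
theorem dg1 : dgB L1 = true := by decide +kernel

theorem dgs : ∀ v, ∀ r < 1201, dg (vs L0 L1 v) r = 0 ∨ dg (vs L0 L1 v) r = 1 + r % 3 := by
  intro v r hr
  cases v
  · have h := allF_spec _ _ _ dg0 r hr
    rw [zero_add, Bool.or_eq_true] at h
    exact h.imp Nat.eq_of_beq_eq_true Nat.eq_of_beq_eq_true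
  · have h := allF_spec _ _ _ dg1 r hr
    rw [zero_add, Bool.or_eq_true] at h
    exact h.imp Nat.eq_of_beq_eq_true Nat.eq_of_beq_eq_true

theorem hb0 : hbit L0 0 = false := by decide +kernel

theorem fE0 : and (Nat.beq (fx E0 1201) 131008) (Nat.beq (fy E0 1201) 130983) = true := by decide +kernel
theorem fE1 : and (Nat.beq (fx E1 1201) 64) (Nat.beq (fy E1 1201) 167) = true := by decide +kernel

theorem ends : ∀ v, walk tz (vs L0 L1 v) 1201 = al + if v then ((2 ^ 7 : ℕ) : ℤ) • bb else 0 := by
  intro v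
  have h1 := (bdd v) 1201 le_rfl
  rw [abs_le, abs_le] at h1
  cases v
  · have h2 := eok0 1201 le_rfl
    have h3 := fE0
    rw [Bool.and_eq_true] at h3
    rw [Nat.eq_of_beq_eq_true h3.1, Nat.eq_of_beq_eq_true h3.2] at h2
    change U false 1201 = _
    obtain ⟨⟨x, hx⟩, ⟨y, hy⟩⟩ := h2
    simp only [MM] at hx hy
    push_cast at hx hy
    apply Prod.ext
    · simp [al]; omega
    · simp [al]; omega
  · have h2 := eok1 1201 le_rfl
    have h3 := fE1
    rw [Bool.and_eq_true] at h3
    rw [Nat.eq_of_beq_eq_true h3.1, Nat.eq_of_beq_eq_true h3.2] at h2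
    change U true 1201 = _
    obtain ⟨⟨x, hx⟩, ⟨y, hy⟩⟩ := h2
    simp only [MM] at hx hy
    push_cast at hx hy
    apply Prod.ext
    · simp [al, bb]; omega
    · simp [al, bb]; omega

/-- one lag -/
def rw' (e : ℕ) : Bool := row 7 9 1201 3 A0 A1 B0 B1 E0 E1 (Nat.mul 3 e)

theorem rw_spec (e : ℕ) (he : 3 * e ≤ 3 * 1201) (h : rw' e = true) :
    ∀ v0 v1 v2 : Bool, ∀ r < 1201, Hit 7 1201 al U v0 v1 v2 (3 * e) r →
      Harm 1201 3 U v0 v1 v2 ((r + (3 * 1201 - 3 * e)) / 1201 % 3) ((r + (3 * 1201 - 3 * e)) % 1201) r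
        ((r + 3 * e) / 1201 % 3) ((r + 3 * e) % 1201) :=
  row_spec 7 9 1201 3 (by norm_num) al U A0 A1 B0 B1 E0 E1 (3 * e) he aok0 aok1 bok0 bok1 eok0 eok1 bdd h

end Pool.Agent.Helper413_Mak.ZM
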