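import Mathlib
import Pool.Agent.Helper413_Mak.ZMR0
import Pool.Agent.Helper413_Mak.ZMR1

set_option autoImplicit false

/-!
All lags.
-/

namespace Pool.Agent.Helper413_Mak.ZM

open Pool.Agent.Helper413_Mak

theorem chk : Chk 7 1201 3 3 al U := by
  apply chk_of_half _ _ _ _ _ _ (by norm_num)
  intro d hd hg
  obtain ⟨e, rfl⟩ := hg
  have h : rw' e = true := by
    have hcs : (0 ≤ e ∧ e < 300) ∨ (300 ≤ e ∧ e < 601) := by omega
    rcases hcs with hc | hc
    · have h := allF_spec _ _ _ rows0 (e - 0) (by omega)
      have e1 : 0 + (e - 0) = e := by omega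
      rw [e1] at h
      exact h
    · have h := allF_spec _ _ _ rows1 (e - 300) (by omega)
      have e1 : 300 + (e - 300) = e := by omega
      rw [e1] at h
      exact h
  exact rw_spec e (by omega) h

end Pool.Agent.Helper413_Mak.ZM
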